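import Pool.Agent.Q40.BF.Link

/-!
# Invariance under all moves in the slab of width one
-/

namespace Pool.Agent.Q40.BF

lemma keeps_of_out' {p q r t : Sym2 V3} (hr : ∀ ω, Polygon 1 ω → r ∉ ω) : Keeps p q r t := by
  intro ω ω' hω hω' _ hs _
  exfalso
  apply hr ω' hω'
  rw [hs, mem_sd]
  exact Or.inr ⟨Or.inr (Or.inr (Or.inl rfl)), hr ω hω⟩

lemma Keeps.flip {p q r t : Sym2 V3} (h : Keeps p q r t) : Keeps q p t r := by
  intro ω ω' hω hω' al hs hN
  refine h ω ω' hω hω' (fun h' => al ⟨h'.2, h'.1⟩) ?_ hN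
  rw [hs]
  congr 1
  ext e
  simp only [Set.mem_insert_iff, Set.mem_singleton_iff]
  tauto

lemma Keeps.refl {p q r t : Sym2 V3} (h : Keeps p q r t) : Keeps p t r q := by
  intro ω ω' hω hω' al hs hN
  refine h ω ω' hω hω' (fun h' => al ⟨h'.1, h'.2.symm⟩) ?_ hN
  rw [hs]
  congr 1
  ext e
  simp only [Set.mem_insert_iff, Set.mem_singleton_iff]
  tauto

/-- the square with the corner `a` and the directions `e`, `f` -/
def K (a e f : V3) : Prop :=
  Keeps (s(a, a + e)) (s(a, a + f)) (s(a + f, a + e + f)) (s(a + e, a + e + f))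

lemma K.swap {a e f : V3} (h : K a e f) : K a f e := by
  have := Keeps.flip h
  unfold K
  rw [add_right_comm a f e]
  exact this

lemma K.neg {a e f : V3} (h : K (a + e) (-e) f) : K a e f := by
  have := Keeps.refl h
  unfold K
  rw [add_neg_cancel_right] at this
  rw [Sym2.eq_swap (a := a) (b := a + e), Sym2.eq_swap (a := a + f) (b := a + e + f)]
  exact this

/-- unit vectors -/
def ux : V3 := (1, 0, 0)
/-- unit vectors -/
def uy : V3 := (0, 1, 0)
/-- unit vectors -/
def uz : V3 := (0, 0, 1)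

lemma slabX {ω : Set (Sym2 V3)} (h : Polygon 1 ω) {x y z : ℤ} (e : EX x y z ∈ ω) :
    0 ≤ z ∧ z ≤ 1 := (h.unit e).2.1
lemma slabY {ω : Set (Sym2 V3)} (h : Polygon 1 ω) {x y z : ℤ} (e : EY x y z ∈ ω) :
    0 ≤ z ∧ z ≤ 1 := (h.unit e).2.1

lemma K_xy (a : V3) : K a ux uy := by
  obtain ⟨x, y, z⟩ := a
  have h1 : K (x, y, z) ux uy = Keeps (EX x y z) (EY x y z) (EX x (y+1) z) (EY (x+1) y z) := by
    simp [K, ux, uy, EX, EY]
  rw [h1]
  by_cases h0 : z = 0
  · subst h0; exact (keeps_xy0 x y).refl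
  by_cases h0 : z = 1
  · subst h0; exact (keeps_xy1 x y).refl
  apply keeps_of_out
  intro ω hω he
  have := slabX hω he
  omega

lemma K_xz (a : V3) : K a ux uz := by
  obtain ⟨x, y, z⟩ := a
  have h1 : K (x, y, z) ux uz = Keeps (EX x y z) (EZ x y z) (EX x y (z+1)) (EZ (x+1) y z) := by
    simp [K, ux, uz, EX, EZ]
  rw [h1]
  by_cases h0 : z = 0
  · subst h0; exact (keeps_xz0 x y).refl
  by_cases h0 : z < 0
  · apply keeps_of_out
    intro ω hω he
    have := slabX hω he
    omega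
  apply keeps_of_out'
  intro ω hω he
  have := slabX hω he
  omega

lemma K_yz (a : V3) : K a uy uz := by
  obtain ⟨x, y, z⟩ := a
  have h1 : K (x, y, z) uy uz = Keeps (EY x y z) (EZ x y z) (EY x y (z+1)) (EZ x (y+1) z) := by
    simp [K, uy, uz, EY, EZ]
  rw [h1]
  by_cases h0 : z = 0
  · subst h0; exact (keeps_yz0 x y).refl
  by_cases h0 : z < 0
  · apply keeps_of_out
    intro ω hω he
    have := slabY hω he
    omega
  apply keeps_of_out'
  intro ω hω he
  have := slabY hω he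
  omega

lemma unit_list {e : V3} (h : UnitVec e) :
    (e = ux ∨ e = uy ∨ e = uz) ∨ (-e = ux ∨ -e = uy ∨ -e = uz) := by
  have h' : UnitVec (e - 0) := by rwa [sub_zero]
  rcases unit_cases h' with h | h | h | h | h | h <;> rw [h] <;> simp [ux, uy, uz]

lemma K_pos (a e f : V3) (he : e = ux ∨ e = uy ∨ e = uz) (hf : f = ux ∨ f = uy ∨ f = uz)
    (h1 : e ≠ f) : K a e f := by
  rcases he with rfl | rfl | rfl <;> rcases hf with rfl | rfl | rfl
  · exact absurd rfl h1
  · exact K_xy a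
  · exact K_xz a
  · exact (K_xy a).swap
  · exact absurd rfl h1
  · exact K_yz a
  · exact (K_xz a).swap
  · exact (K_yz a).swap
  · exact absurd rfl h1

lemma K_pos' (a e f : V3) (he : UnitVec e) (hf : f = ux ∨ f = uy ∨ f = uz)
    (h1 : e ≠ f) (h2 : e ≠ -f) : K a e f := by
  rcases unit_list he with h | h
  · exact K_pos a e f h hf h1
  · exact (K_pos (a + e) (-e) f h hf (fun h' => h2 (by rw [← h', neg_neg]))).neg

lemma K_all (a e f : V3) (he : UnitVec e) (hf : UnitVec f)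
    (h1 : e ≠ f) (h2 : e ≠ -f) : K a e f := by
  rcases unit_list hf with h | h
  · exact K_pos' a e f he h h1 h2
  · exact (K_pos' (a + f) e (-f) he h h2 (fun h' => h1 (by rw [h', neg_neg]))).swap.neg.swap

theorem Move.keeps {ω ω' : Set (Sym2 V3)} (h : Move 1 ω ω') (hN : (stOf ω).N) :
    (stOf ω').N := by
  obtain ⟨h1, h2, a, e, f, he, hf, h3, h4, al, hs⟩ := h
  exact K_all a e f he hf h3 h4 ω ω' h1 h2 al hs hN

theorem Move.symm {w : ℤ} {ω ω' : Set (Sym2 V3)} (h : Move w ω ω') : Move w ω' ω := by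
  obtain ⟨h1, h2, a, e, f, he, hf, h3, h4, al, hs⟩ := h
  refine ⟨h2, h1, a, e, f, he, hf, h3, h4, ?_, ?_⟩
  · intro h'
    apply al
    rw [hs] at h'
    simp only [squareSides, mem_sd, true_or, or_true] at h'
    simp only [xor_true, xor_iff_not_iff, iff_true, not_iff_not] at h'
    exact h'
  · rw [hs, symmDiff_symmDiff_cancel_right]

theorem SameClass.keeps {ω ω' : Set (Sym2 V3)} (h : SameClass 1 ω ω') :
    (stOf ω).N ↔ (stOf ω').N := by
  induction h with
  | rel a b h => exact ⟨h.keeps, h.symm.keeps⟩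
  | refl a => exact Iff.rfl
  | symm a b _ ih => exact ih.symm
  | trans a b c _ _ ih1 ih2 => exact ih1.trans ih2

end Pool.Agent.Q40.BF
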