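import Pool.Agent.Q40.BF.Data

/-!
# The colouring of the polygon, and the unit square
-/

namespace Pool.Agent.Q40.BF

/-- the directed edges of the polygon -/
def dP : List (V3 × V3) := lP.zip (lP.rotate 1)

/-- membership of an edge -/
def inE (u v : V3) : Bool := decide ((u, v) ∈ dP) || decide ((v, u) ∈ dP)

lemma mem_closed {u v : V3} : s(u, v) ∈ closedPath lP ↔ inE u v = true := by
  simp only [closedPath, inE, dP, Bool.or_eq_true, decide_eq_true_eq, Set.mem_ofPred_eq]
  constructor
  · rintro ⟨p, hp, he⟩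
    rcases Sym2.eq_iff.1 he with ⟨h1, h2⟩ | ⟨h1, h2⟩
    · left; rw [h1, h2]; exact hp
    · right; rw [h1, h2]; exact hp
  · rintro (h | h)
    · exact ⟨_, h, rfl⟩
    · exact ⟨_, h, Sym2.eq_swap⟩

/-- the colour of a site -/
def colOf (v : V3) : Fin 3 := ((lP.zip colP).lookup v).getD 0

/-- the conditions on a colouring along a directed edge -/
def chk (u v : V3) : Bool :=
  (if v = (u.1, u.2.1, u.2.2 + 1) then decide (colOf u = colOf v) else true) &&
  (if v = (u.1 + 1, u.2.1, u.2.2) then
    (if u.2.2 = 1 then decide (colOf u = colOf v) else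
      decide (colOf v = gg (inE (u.1, u.2.1 - 1, 1) (u.1, u.2.1 - 1 + 1, 1))
        (colOf (u.1, u.2.1, 1)) (colOf u))) else true) &&
  (if v = (u.1, u.2.1 + 1, u.2.2) then
    (if u.2.2 = 1 then decide (colOf u = colOf v) else
      decide (colOf v = gg (inE (u.1 - 1, u.2.1, 1) (u.1 - 1 + 1, u.2.1, 1))
        (colOf (u.1, u.2.1, 1)) (colOf u))) else true)

lemma chk_all : ∀ p ∈ dP, chk p.1 p.2 = true ∧ chk p.2 p.1 = true := by decide +kernel

lemma chk_of {u v : V3} (h : inE u v = true) : chk u v = true := by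
  simp only [inE, Bool.or_eq_true, decide_eq_true_eq] at h
  rcases h with h | h
  · exact (chk_all _ h).1
  · exact (chk_all _ h).2

theorem N_P : (stOf (closedPath lP)).N := by
  classical
  refine ⟨fun a b => colOf (a, b, 0), fun a b => colOf (a, b, 1), ⟨?_, ?_, ?_, ?_, ?_⟩, ?_⟩
  · intro a b h
    simp only [stOf, decide_eq_true_eq, EZ, mem_closed] at h
    have := chk_of h
    simp only [chk] at this
    simpa using this
  · intro a b h
    simp only [stOf, decide_eq_true_eq, EX, mem_closed] at h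
    have := chk_of h
    simp only [chk] at this
    simpa using this
  · intro a b h
    simp only [stOf, decide_eq_true_eq, EY, mem_closed] at h
    have := chk_of h
    simp only [chk] at this
    simpa using this
  · intro a b h
    simp only [stOf, decide_eq_true_eq, EX, mem_closed] at h
    have := chk_of h
    simp only [chk] at this
    have h2 : (stOf (closedPath lP)).Y1 a (b-1) = inE (a, b-1, 1) (a, b-1+1, 1) := by
      simp only [stOf, EY, mem_closed, Bool.decide_eq_true]
    rw [h2]
    simpa using this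
  · intro a b h
    simp only [stOf, decide_eq_true_eq, EY, mem_closed] at h
    have := chk_of h
    simp only [chk] at this
    have h2 : (stOf (closedPath lP)).X1 (a-1) b = inE (a-1, b, 1) (a-1+1, b, 1) := by
      simp only [stOf, EX, mem_closed, Bool.decide_eq_true]
    rw [h2]
    simpa using this
  · intro γ hf
    have h1 := (hf.y1 2 0 (by
      simp only [stOf, decide_eq_true_eq, EY, mem_closed]; decide +kernel)).1
    have h2 := (hf.x0 0 (-2) (by
      simp only [stOf, decide_eq_true_eq, EX, mem_closed]; decide +kernel)).1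
    have h3 : colOf (2, 0, 1) ≠ colOf (0, -2, 0) := by decide +kernel
    exact h3 (h1.trans h2.symm)

lemma closedPath_Q : closedPath lQ = {EX 0 0 0, EY 1 0 0, EX 0 1 0, EY 0 0 0} := by
  ext e
  simp only [closedPath, lQ, Set.mem_ofPred_eq, Set.mem_insert_iff, Set.mem_singleton_iff]
  simp only [List.rotate_cons_succ, List.rotate_zero, List.cons_append, List.nil_append,
    List.zip_cons_cons, List.zip_nil_left, List.mem_cons, List.not_mem_nil, or_false,
    exists_eq_or_imp, exists_eq_left]
  rw [EX, EY, EX, EY, Sym2.eq_swap (a := ((0:ℤ), (1:ℤ), (0:ℤ))) (b := (0, 0, 0)),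
    Sym2.eq_swap (a := ((1:ℤ), (1:ℤ), (0:ℤ))) (b := (0, 1, 0))]
  simp only [zero_add]
  tauto

theorem not_N_Q : ¬ (stOf (closedPath lQ)).N := by
  classical
  rintro ⟨c0, c1, hc, hf⟩
  have hX0 : ∀ a b, (stOf (closedPath lQ)).X0 a b = true ↔ (a = 0 ∧ (b = 0 ∨ b = 1)) := by
    intro a b
    simp only [stOf, decide_eq_true_eq, closedPath_Q, Set.mem_insert_iff,
      Set.mem_singleton_iff, EX_inj, EX_ne_EY, false_or, or_false, and_true]
    tauto
  have hY0 : ∀ a b, (stOf (closedPath lQ)).Y0 a b = true ↔ (b = 0 ∧ (a = 0 ∨ a = 1)) := by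
    intro a b
    simp only [stOf, decide_eq_true_eq, closedPath_Q, Set.mem_insert_iff,
      Set.mem_singleton_iff, EY_inj, EY_ne_EX, false_or, and_true]
    tauto
  have hX1 : ∀ a b, (stOf (closedPath lQ)).X1 a b = false := by
    intro a b
    simp only [stOf, decide_eq_false_iff_not, closedPath_Q, Set.mem_insert_iff,
      Set.mem_singleton_iff, EX_inj, EX_ne_EY, false_or, or_false]
    omega
  have hY1 : ∀ a b, (stOf (closedPath lQ)).Y1 a b = false := by
    intro a b
    simp only [stOf, decide_eq_false_iff_not, closedPath_Q, Set.mem_insert_iff,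
      Set.mem_singleton_iff, EY_inj, EY_ne_EX, false_or, or_false]
    omega
  have hZ : ∀ a b, (stOf (closedPath lQ)).Z a b = false := by
    intro a b
    simp only [stOf, decide_eq_false_iff_not, closedPath_Q, Set.mem_insert_iff,
      Set.mem_singleton_iff, EZ_ne_EX, EZ_ne_EY, or_false, not_false_eq_true]
  have e1 := hc.bx 0 0 ((hX0 _ _).2 ⟨rfl, Or.inl rfl⟩)
  have e2 := hc.bx 0 1 ((hX0 _ _).2 ⟨rfl, Or.inr rfl⟩)
  have e3 := hc.by' 0 0 ((hY0 _ _).2 ⟨rfl, Or.inl rfl⟩)
  rw [hY1] at e1 e2
  rw [hX1] at e3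
  simp only [gg, Bool.false_eq_true, if_false, zero_add] at e1 e2 e3
  apply hf (c0 0 0)
  refine ⟨?_, ?_, ?_, ?_, ?_⟩
  · intro a b h
    obtain ⟨rfl, rfl | rfl⟩ := (hX0 _ _).1 h
    · exact ⟨rfl, e1⟩
    · exact ⟨e3, e2.trans e3⟩
  · intro a b h
    obtain ⟨rfl, rfl | rfl⟩ := (hY0 _ _).1 h
    · exact ⟨rfl, e3⟩
    · exact ⟨e1, e2.trans e3⟩
  · intro a b h
    rw [hX1] at h; exact absurd h (by simp)
  · intro a b h
    rw [hY1] at h; exact absurd h (by simp)
  · intro a b h
    rw [hZ] at h; exact absurd h (by simp)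

/-- an unknotted polygon in the slab of width one which cannot be reduced there -/
theorem main : ∃ P Q : Set (Sym2 V3), Polygon 1 P ∧ Polygon 1 Q ∧
    (∀ w, 2 ≤ w → SameClass w P Q) ∧ ¬ SameClass 1 P Q := by
  have h2 : IsCycle 2 lP := cycP.mono (by norm_num)
  refine ⟨closedPath lP, closedPath lQ, ⟨_, cycP, rfl⟩, ⟨_, by decide +kernel, rfl⟩, ?_, ?_⟩
  · intro w hw
    exact (runs_sound opsP h2 runP).2.mono hw
  · intro h
    exact not_N_Q (h.keeps.1 N_P)

end Pool.Agent.Q40.BF
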