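import Pool.Agent.Q40.BF.Steps
import Pool.Agent.Q40.BF.Class

/-!
# An unknotted polygon with a colouring with three colours
-/

namespace Pool.Agent.Q40.BF

/-- the sites of the polygon -/
def lP : List V3 :=
  [
    (2, -1, 0), (2, -1, 1), (2, 0, 1), (2, 1, 1), (2, 2, 1), (1, 2, 1), (1, 2, 0), (0, 2, 0),
    (-1, 2, 0), (-1, 2, 1), (-1, 1, 1), (-1, 0, 1), (-1, -1, 1), (0, -1, 1), (0, -2, 1),
    (0, -2, 0), (1, -2, 0), (2, -2, 0), (3, -2, 0), (3, -1, 0), (3, 0, 0), (2, 0, 0), (1, 0, 0),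
    (1, 0, 1), (1, -1, 1), (1, -2, 1), (2, -2, 1), (3, -2, 1), (3, -1, 1), (3, 0, 1), (3, 1, 1),
    (3, 1, 0), (2, 1, 0), (1, 1, 0), (0, 1, 0), (-1, 1, 0), (-2, 1, 0), (-2, 1, 1), (-2, 2, 1),
    (-2, 3, 1), (-1, 3, 1), (0, 3, 1), (0, 2, 1), (0, 1, 1), (0, 0, 1), (0, 0, 0), (0, -1, 0),
    (1, -1, 0)]

/-- instructions which reduce it to a unit square -/
def opsP : List Op :=
  [
    .g 23 (0, 0, 1), .f 2, .f 24, .g 12 (0, 0, -1), .f 8, .s 1, .f 44, .f 34, .f 17, .f 3, .s 28,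
    .s 15, .f 2, .s 2, .s 40, .g 26 (0, 0, 1), .f 19, .f 24, .f 3, .s 15, .f 41, .s 1, .f 21,
    .f 17, .f 37, .s 1, .f 1, .s 34, .s 0, .s 32, .s 31, .s 28, .s 0, .s 0, .f 0, .f 11, .s 14,
    .f 0, .f 21, .f 12, .f 12, .s 1, .f 8, .f 15, .f 17, .s 18, .s 5, .f 9, .s 9, .s 11, .s 9,
    .s 8, .s 1, .s 2, .g 1 (0, 0, -1), .s 3, .g 2 (1, 0, 0), .s 3]

/-- the colours of the sites of `lP` -/
def colP : List (Fin 3) :=
  [0, 0, 0, 0, 0, 0, 0, 1, 1, 1, 1, 1, 1, 1, 1, 1, 1, 1, 1, 1, 1, 1, 1, 1, 1, 1, 1, 1, 1, 1, 1, 1, 1, 1, 0, 2, 2, 2, 2, 2, 2, 2, 2, 2, 2, 2, 0, 2]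

/-- the unit square -/
def lQ : List V3 := [(0, 1, 0), (0, 0, 0), (1, 0, 0), (1, 1, 0)]

lemma cycP : IsCycle 1 lP := by decide +kernel

lemma runP : runs 2 opsP lP = some lQ := by decide +kernel

end Pool.Agent.Q40.BF
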