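import Mathlib

/-!
# Lattice polygons in slabs and BFACF moves
-/

namespace Pool.Agent.Q40.BF

/-- the sites of the cubic lattice -/
abbrev V3 := ℤ × ℤ × ℤ

/-- the six unit vectors of the cubic lattice -/
def UnitVec (e : V3) : Prop := e.1.natAbs + e.2.1.natAbs + e.2.2.natAbs = 1

instance (e : V3) : Decidable (UnitVec e) := inferInstanceAs (Decidable (_ = _))

/-- the edges of the closed path which visits the sites of the list `l` in this order and then
returns to its first site -/
def closedPath (l : List V3) : Set (Sym2 V3) :=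
  {e | ∃ p ∈ l.zip (l.rotate 1), e = s(p.1, p.2)}

/-- the list `l` visits distinct sites of the slab `0 ≤ Z ≤ w`, and consecutive sites (the last
and the first one included) are at distance one -/
def IsCycle (w : ℤ) (l : List V3) : Prop :=
  3 ≤ l.length ∧ l.Nodup ∧ (∀ v ∈ l, 0 ≤ v.2.2 ∧ v.2.2 ≤ w) ∧
    ∀ p ∈ l.zip (l.rotate 1), UnitVec (p.2 - p.1)

instance (w : ℤ) (l : List V3) : Decidable (IsCycle w l) :=
  inferInstanceAs (Decidable (_ ∧ _ ∧ _ ∧ _))

/-- `ω` is the set of edges of a lattice polygon in the slab `0 ≤ Z ≤ w` -/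
def Polygon (w : ℤ) (ω : Set (Sym2 V3)) : Prop := ∃ l, IsCycle w l ∧ ω = closedPath l

/-- the four sides of the unit square with the corner `a` spanned by the unit vectors `e`, `f` -/
def squareSides (a e f : V3) : Set (Sym2 V3) :=
  {s(a, a + e), s(a, a + f), s(a + f, a + e + f), s(a + e, a + e + f)}

/-- BFACF elementary move in the slab `0 ≤ Z ≤ w`: `ω` and `ω'` are polygons in the slab, and `ω'`
is the symmetric difference of `ω` and the four sides of a unit square which has one side, two
adjacent sides or three sides in `ω`, that is, for which some two opposite sides are not both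
inside or both outside `ω` -/
def Move (w : ℤ) (ω ω' : Set (Sym2 V3)) : Prop :=
  Polygon w ω ∧ Polygon w ω' ∧ ∃ a e f : V3, UnitVec e ∧ UnitVec f ∧ e ≠ f ∧ e ≠ -f ∧
    ¬ ((s(a, a + e) ∈ ω ↔ s(a + f, a + e + f) ∈ ω) ∧
      (s(a, a + f) ∈ ω ↔ s(a + e, a + e + f) ∈ ω)) ∧
    ω' = symmDiff ω (squareSides a e f)

/-- `ω` and `ω'` lie in the same ergodicity class of the BFACF algorithm in the slab of width
`w`: they can be joined by a finite sequence of elementary moves -/
def SameClass (w : ℤ) (ω ω' : Set (Sym2 V3)) : Prop := Relation.EqvGen (Move w) ω ω'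

end Pool.Agent.Q40.BF
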