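import Pool.Agent.Q40.BF.Local

/-!
# Colourings of polygons in the slab of width one

A state records which edges of the slab are used.  Bottom edges change the colour when a top
edge passes over them; top edges and vertical edges do not change the colour.
-/

namespace Pool.Agent.Q40.BF

/-- the set of used edges: horizontal ones at height `0` and `1` and vertical ones -/
structure St where
  X0 : ℤ → ℤ → Bool
  X1 : ℤ → ℤ → Bool
  Y0 : ℤ → ℤ → Bool
  Y1 : ℤ → ℤ → Bool
  Z : ℤ → ℤ → Bool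

/-- every site lies on zero or two used edges -/
def St.Good (s : St) : Prop := ∀ a b,
  Ev (s.X0 a b) (s.X0 (a-1) b) (s.Y0 a b) (s.Y0 a (b-1)) (s.Z a b) = true ∧
  Ev (s.X1 a b) (s.X1 (a-1) b) (s.Y1 a b) (s.Y1 a (b-1)) (s.Z a b) = true

/-- colourings of the sites -/
structure St.Col (s : St) (c0 c1 : ℤ → ℤ → Fin 3) : Prop where
  v : ∀ a b, s.Z a b = true → c0 a b = c1 a b
  tx : ∀ a b, s.X1 a b = true → c1 a b = c1 (a+1) b
  ty : ∀ a b, s.Y1 a b = true → c1 a b = c1 a (b+1)
  bx : ∀ a b, s.X0 a b = true → c0 (a+1) b = gg (s.Y1 a (b-1)) (c1 a b) (c0 a b)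
  by' : ∀ a b, s.Y0 a b = true → c0 a (b+1) = gg (s.X1 (a-1) b) (c1 a b) (c0 a b)

/-- all sites on used edges have the colour `γ` -/
structure St.Flat (s : St) (c0 c1 : ℤ → ℤ → Fin 3) (γ : Fin 3) : Prop where
  x0 : ∀ a b, s.X0 a b = true → c0 a b = γ ∧ c0 (a+1) b = γ
  y0 : ∀ a b, s.Y0 a b = true → c0 a b = γ ∧ c0 a (b+1) = γ
  x1 : ∀ a b, s.X1 a b = true → c1 a b = γ ∧ c1 (a+1) b = γ
  y1 : ∀ a b, s.Y1 a b = true → c1 a b = γ ∧ c1 a (b+1) = γ
  z : ∀ a b, s.Z a b = true → c0 a b = γ ∧ c1 a b = γ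

/-- there is a colouring with at least two colours -/
def St.N (s : St) : Prop := ∃ c0 c1, s.Col c0 c1 ∧ ∀ γ, ¬ s.Flat c0 c1 γ

/-- `s'` arises from `s` by exchanging the sides of the bottom square at `(x, y)` -/
structure TB (s s' : St) (x y : ℤ) : Prop where
  S : s'.X0 x y = !s.X0 x y
  N : s'.X0 x (y+1) = !s.X0 x (y+1)
  E : s'.Y0 (x+1) y = !s.Y0 (x+1) y
  W : s'.Y0 x y = !s.Y0 x y
  X0 : ∀ a b, ¬ (a = x ∧ (b = y ∨ b = y+1)) → s'.X0 a b = s.X0 a b
  Y0 : ∀ a b, ¬ (b = y ∧ (a = x ∨ a = x+1)) → s'.Y0 a b = s.Y0 a b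
  X1 : s'.X1 = s.X1
  Y1 : s'.Y1 = s.Y1
  Z : s'.Z = s.Z

lemma np0 (S p W q r : Bool) (h : Ev S p W q r = true) (h' : Ev (!S) p (!W) q r = true) :
    (p = true ∨ q = true ∨ r = true) → S ≠ W := by
  revert S p W q r; decide
lemma np1 (p S E q r : Bool) (h : Ev p S E q r = true) (h' : Ev p (!S) (!E) q r = true) :
    (p = true ∨ q = true ∨ r = true) → S ≠ E := by
  revert S p E q r; decide
lemma np2 (p N q E r : Bool) (h : Ev p N q E r = true) (h' : Ev p (!N) q (!E) r = true) :
    (p = true ∨ q = true ∨ r = true) → E ≠ N := by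
  revert N p E q r; decide
lemma np3 (N p q W r : Bool) (h : Ev N p q W r = true) (h' : Ev (!N) p q (!W) r = true) :
    (p = true ∨ q = true ∨ r = true) → N ≠ W := by
  revert N p W q r; decide

theorem inv_TB {s s' : St} {x y : ℤ} (T : TB s s' x y) (g : s.Good) (g' : s'.Good)
    (al : ¬ (s.X0 x y = s.X0 x (y+1) ∧ s.Y0 (x+1) y = s.Y0 x y)) (hN : s.N) : s'.N := by
  obtain ⟨c0, c1, hc, hnf⟩ := hN
  -- degree information at the four corners
  have h0 : (s.X0 (x-1) y = true ∨ s.Y0 x (y-1) = true ∨ s.Z x y = true) →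
      s.X0 x y ≠ s.Y0 x y := by
    have h := (g x y).1
    have h' := (g' x y).1
    rw [T.S, T.W, T.X0 (x-1) y (by omega), T.Y0 x (y-1) (by omega), T.Z] at h'
    exact np0 _ _ _ _ _ h h'
  have h1 : (s.X0 (x+1) y = true ∨ s.Y0 (x+1) (y-1) = true ∨ s.Z (x+1) y = true) →
      s.X0 x y ≠ s.Y0 (x+1) y := by
    have h := (g (x+1) y).1
    have h' := (g' (x+1) y).1
    rw [show x + 1 - 1 = x by ring] at h h'
    rw [T.S, T.E, T.X0 (x+1) y (by omega), T.Y0 (x+1) (y-1) (by omega), T.Z] at h'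
    exact np1 _ _ _ _ _ h h'
  have h2 : (s.X0 (x+1) (y+1) = true ∨ s.Y0 (x+1) (y+1) = true ∨ s.Z (x+1) (y+1) = true) →
      s.Y0 (x+1) y ≠ s.X0 x (y+1) := by
    have h := (g (x+1) (y+1)).1
    have h' := (g' (x+1) (y+1)).1
    rw [show x + 1 - 1 = x by ring, show y + 1 - 1 = y by ring] at h h'
    rw [T.N, T.E, T.X0 (x+1) (y+1) (by omega), T.Y0 (x+1) (y+1) (by omega), T.Z] at h'
    exact np2 _ _ _ _ _ h h'
  have h3 : (s.X0 (x-1) (y+1) = true ∨ s.Y0 x (y+1) = true ∨ s.Z x (y+1) = true) →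
      s.X0 x (y+1) ≠ s.Y0 x y := by
    have h := (g x (y+1)).1
    have h' := (g' x (y+1)).1
    rw [show y + 1 - 1 = y by ring] at h h'
    rw [T.N, T.W, T.X0 (x-1) (y+1) (by omega), T.Y0 x (y+1) (by omega), T.Z] at h'
    exact np3 _ _ _ _ _ h h'
  obtain ⟨d0, hd0, d1, hd1, hS, d2, hd2, hE, d3, hd3, hNN, hW, hγ⟩ :=
    local_bottom (s.X0 x y) (s.Y0 (x+1) y) (s.X0 x (y+1)) (s.Y0 x y) al
      (s.X1 x y) (s.X1 (x-1) y) (s.Y1 x y) (s.Y1 x (y-1)) (s.Z x y) (g x y).2
      (fun h => h0 (Or.inr (Or.inr h))) (c1 x y) (c0 x y) (hc.v x y) (c0 (x+1) y)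
      (hc.bx x y) (c0 (x+1) (y+1))
      (by
        intro h
        have := hc.by' (x+1) y h
        rw [show x + 1 - 1 = x by ring] at this
        rw [this]
        cases hX : s.X1 x y
        · simp [gg]
        · rw [hc.tx x y hX]) (c0 x (y+1))
      (by
        intro h
        have := hc.bx x (y+1) h
        rw [show y + 1 - 1 = y by ring] at this
        rw [this]
        cases hX : s.Y1 x y
        · simp [gg]
        · rw [hc.ty x y hX]) (hc.by' x y)
  set c : ℤ → ℤ → Fin 3 := fun a b => if a = x ∧ b = y then d0 else if a = x+1 ∧ b = y then d1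
    else if a = x+1 ∧ b = y+1 then d2 else if a = x ∧ b = y+1 then d3 else c0 a b with hcdef
  have e0 : c x y = d0 := by simp [c]
  have e1 : c (x+1) y = d1 := by simp [c]
  have e2 : c (x+1) (y+1) = d2 := by simp [c]
  have e3 : c x (y+1) = d3 := by simp [c]
  have F : ∀ a b, ((s.X0 a b = true ∧ ¬ (a = x ∧ (b = y ∨ b = y+1))) ∨
      (s.X0 (a-1) b = true ∧ ¬ (a-1 = x ∧ (b = y ∨ b = y+1))) ∨
      (s.Y0 a b = true ∧ ¬ (b = y ∧ (a = x ∨ a = x+1))) ∨
      (s.Y0 a (b-1) = true ∧ ¬ (b-1 = y ∧ (a = x ∨ a = x+1))) ∨ s.Z a b = true) →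
      c a b = c0 a b := by
    intro a b hab
    by_cases q0 : a = x ∧ b = y
    · obtain ⟨rfl, rfl⟩ := q0
      rw [e0]; apply hd0; apply h0
      rcases hab with h | h | h | h | h
      · exact absurd ⟨rfl, Or.inl rfl⟩ h.2
      · exact Or.inl h.1
      · exact absurd ⟨rfl, Or.inl rfl⟩ h.2
      · exact Or.inr (Or.inl h.1)
      · exact Or.inr (Or.inr h)
    by_cases q1 : a = x+1 ∧ b = y
    · obtain ⟨rfl, rfl⟩ := q1
      rw [e1]; apply hd1; apply h1
      rcases hab with h | h | h | h | h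
      · exact Or.inl h.1
      · exact absurd ⟨by ring, Or.inl rfl⟩ h.2
      · exact absurd ⟨rfl, Or.inr rfl⟩ h.2
      · exact Or.inr (Or.inl h.1)
      · exact Or.inr (Or.inr h)
    by_cases q2 : a = x+1 ∧ b = y+1
    · obtain ⟨rfl, rfl⟩ := q2
      rw [e2]; apply hd2; apply h2
      rcases hab with h | h | h | h | h
      · exact Or.inl h.1
      · exact absurd ⟨by ring, Or.inr rfl⟩ h.2
      · exact Or.inr (Or.inl h.1)
      · exact absurd ⟨by ring, Or.inr rfl⟩ h.2
      · exact Or.inr (Or.inr h)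
    by_cases q3 : a = x ∧ b = y+1
    · obtain ⟨rfl, rfl⟩ := q3
      rw [e3]; apply hd3; apply h3
      rcases hab with h | h | h | h | h
      · exact absurd ⟨rfl, Or.inr rfl⟩ h.2
      · exact Or.inl h.1
      · exact Or.inr (Or.inl h.1)
      · exact absurd ⟨by ring, Or.inl rfl⟩ h.2
      · exact Or.inr (Or.inr h)
    simp [c, q0, q1, q2, q3]
  refine ⟨c, c1, ⟨?_, ?_, ?_, ?_, ?_⟩, ?_⟩
  · intro a b h
    rw [T.Z] at h
    rw [F a b (Or.inr (Or.inr (Or.inr (Or.inr h))))]
    exact hc.v a b h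
  · intro a b h
    rw [T.X1] at h
    exact hc.tx a b h
  · intro a b h
    rw [T.Y1] at h
    exact hc.ty a b h
  · intro a b h
    rw [T.Y1]
    by_cases q : a = x ∧ (b = y ∨ b = y+1)
    · obtain ⟨rfl, rfl | rfl⟩ := q
      · rw [e1, e0]
        apply hS
        rw [T.S] at h
        simpa using h
      · rw [e2, e3]
        rw [T.N] at h
        have h' : s.X0 a (y+1) = false := by simpa using h
        rw [hNN h', show y + 1 - 1 = y by ring]
        cases hX : s.Y1 a y
        · simp [gg]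
        · rw [hc.ty a y hX]
    · rw [T.X0 a b q] at h
      rw [F a b (Or.inl ⟨h, q⟩), F (a+1) b (by
        right; left
        rw [show a + 1 - 1 = a by ring]; exact ⟨h, q⟩)]
      exact hc.bx a b h
  · intro a b h
    rw [T.X1]
    by_cases q : b = y ∧ (a = x ∨ a = x+1)
    · obtain ⟨rfl, rfl | rfl⟩ := q
      · rw [e3, e0]
        apply hW
        rw [T.W] at h
        simpa using h
      · rw [e2, e1]
        rw [T.E] at h
        have h' : s.Y0 (x+1) b = false := by simpa using h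
        rw [hE h', show x + 1 - 1 = x by ring]
        cases hX : s.X1 x b
        · simp [gg]
        · rw [hc.tx x b hX]
    · rw [T.Y0 a b q] at h
      rw [F a b (Or.inr (Or.inr (Or.inl ⟨h, q⟩))), F a (b+1) (by
        right; right; right; left
        rw [show b + 1 - 1 = b by ring]; exact ⟨h, q⟩)]
      exact hc.by' a b h
  · intro γ hf
    apply hnf γ
    have key := hγ γ
      (fun h => by
        have := hf.x0 x y (by rw [T.S, h]; rfl)
        rwa [e0, e1] at this)
      (fun h => by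
        have := hf.y0 (x+1) y (by rw [T.E, h]; rfl)
        rwa [e1, e2] at this)
      (fun h => by
        have := hf.x0 x (y+1) (by rw [T.N, h]; rfl)
        rwa [e3, e2] at this)
      (fun h => by
        have := hf.y0 x y (by rw [T.W, h]; rfl)
        rwa [e0, e3] at this)
      (fun h => by
        simp only [Bool.or_eq_true] at h
        rcases h with (((h | h) | h) | h) | h
        · exact (hf.x1 x y (by rw [T.X1]; exact h)).1
        · have := (hf.x1 (x-1) y (by rw [T.X1]; exact h)).2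
          rwa [show x - 1 + 1 = x by ring] at this
        · exact (hf.y1 x y (by rw [T.Y1]; exact h)).1
        · have := (hf.y1 x (y-1) (by rw [T.Y1]; exact h)).2
          rwa [show y - 1 + 1 = y by ring] at this
        · exact (hf.z x y (by rw [T.Z]; exact h)).2)
    refine ⟨?_, ?_, ?_, ?_, ?_⟩
    · intro a b h
      by_cases q : a = x ∧ (b = y ∨ b = y+1)
      · obtain ⟨rfl, rfl | rfl⟩ := q
        · exact key.1 h
        · exact key.2.2.1 h
      · have := hf.x0 a b (by rw [T.X0 a b q]; exact h)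
        rwa [F a b (Or.inl ⟨h, q⟩), F (a+1) b (by
          right; left
          rw [show a + 1 - 1 = a by ring]; exact ⟨h, q⟩)] at this
    · intro a b h
      by_cases q : b = y ∧ (a = x ∨ a = x+1)
      · obtain ⟨rfl, rfl | rfl⟩ := q
        · exact key.2.2.2 h
        · exact key.2.1 h
      · have := hf.y0 a b (by rw [T.Y0 a b q]; exact h)
        rwa [F a b (Or.inr (Or.inr (Or.inl ⟨h, q⟩))), F a (b+1) (by
          right; right; right; left
          rw [show b + 1 - 1 = b by ring]; exact ⟨h, q⟩)] at this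
    · intro a b h
      exact hf.x1 a b (by rw [T.X1]; exact h)
    · intro a b h
      exact hf.y1 a b (by rw [T.Y1]; exact h)
    · intro a b h
      have := hf.z a b (by rw [T.Z]; exact h)
      rwa [F a b (Or.inr (Or.inr (Or.inr (Or.inr h))))] at this

end Pool.Agent.Q40.BF
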