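import Pool.Agent.Q40.BF.Inv

/-!
# Moves across a square at height one
-/

namespace Pool.Agent.Q40.BF

/-- `s'` arises from `s` by exchanging the sides of the top square at `(x, y)` -/
structure TT (s s' : St) (x y : ℤ) : Prop where
  S : s'.X1 x y = !s.X1 x y
  N : s'.X1 x (y+1) = !s.X1 x (y+1)
  E : s'.Y1 (x+1) y = !s.Y1 (x+1) y
  W : s'.Y1 x y = !s.Y1 x y
  X1 : ∀ a b, ¬ (a = x ∧ (b = y ∨ b = y+1)) → s'.X1 a b = s.X1 a b
  Y1 : ∀ a b, ¬ (b = y ∧ (a = x ∨ a = x+1)) → s'.Y1 a b = s.Y1 a b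
  X0 : s'.X0 = s.X0
  Y0 : s'.Y0 = s.Y0
  Z : s'.Z = s.Z

set_option synthInstance.maxSize 1000 in
lemma local_t : ∀ S E N W : Bool, ¬ (S = N ∧ E = W) → ∀ e0 e1 e2 e3 : Fin 3,
    (S = true → e0 = e1) → (E = true → e1 = e2) → (N = true → e3 = e2) → (W = true → e0 = e3) →
    ∃ t : Fin 3, (S = true → e0 = t ∧ e1 = t) ∧ (E = true → e1 = t ∧ e2 = t) ∧
      (N = true → e3 = t ∧ e2 = t) ∧ (W = true → e0 = t ∧ e3 = t) := by
  decide +kernel

lemma star_out (f : Bool) (t e cw r : Fin 3) (he : f = true → e = t) (h : r = gg f e cw) :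
    r = gg (!f) t (pi t cw) := by
  revert f t e cw r; decide

lemma star_in (f : Bool) (t e cw l : Fin 3) (he : f = true → e = t) (h : cw = gg f e l) :
    pi t cw = gg (!f) t l := by
  revert f t e cw l; decide

theorem inv_TT {s s' : St} {x y : ℤ} (T : TT s s' x y) (g : s.Good) (g' : s'.Good)
    (al : ¬ (s.X1 x y = s.X1 x (y+1) ∧ s.Y1 (x+1) y = s.Y1 x y)) (hN : s.N) : s'.N := by
  obtain ⟨c0, c1, hc, hnf⟩ := hN
  have h0 : (s.X1 (x-1) y = true ∨ s.Y1 x (y-1) = true ∨ s.Z x y = true) →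
      s.X1 x y ≠ s.Y1 x y := by
    have h := (g x y).2
    have h' := (g' x y).2
    rw [T.S, T.W, T.X1 (x-1) y (by omega), T.Y1 x (y-1) (by omega), T.Z] at h'
    exact np0 _ _ _ _ _ h h'
  have h1 : (s.X1 (x+1) y = true ∨ s.Y1 (x+1) (y-1) = true ∨ s.Z (x+1) y = true) →
      s.X1 x y ≠ s.Y1 (x+1) y := by
    have h := (g (x+1) y).2
    have h' := (g' (x+1) y).2
    rw [show x + 1 - 1 = x by ring] at h h'
    rw [T.S, T.E, T.X1 (x+1) y (by omega), T.Y1 (x+1) (y-1) (by omega), T.Z] at h'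
    exact np1 _ _ _ _ _ h h'
  have h2 : (s.X1 (x+1) (y+1) = true ∨ s.Y1 (x+1) (y+1) = true ∨ s.Z (x+1) (y+1) = true) →
      s.Y1 (x+1) y ≠ s.X1 x (y+1) := by
    have h := (g (x+1) (y+1)).2
    have h' := (g' (x+1) (y+1)).2
    rw [show x + 1 - 1 = x by ring, show y + 1 - 1 = y by ring] at h h'
    rw [T.N, T.E, T.X1 (x+1) (y+1) (by omega), T.Y1 (x+1) (y+1) (by omega), T.Z] at h'
    exact np2 _ _ _ _ _ h h'
  have h3 : (s.X1 (x-1) (y+1) = true ∨ s.Y1 x (y+1) = true ∨ s.Z x (y+1) = true) →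
      s.X1 x (y+1) ≠ s.Y1 x y := by
    have h := (g x (y+1)).2
    have h' := (g' x (y+1)).2
    rw [show y + 1 - 1 = y by ring] at h h'
    rw [T.N, T.W, T.X1 (x-1) (y+1) (by omega), T.Y1 x (y+1) (by omega), T.Z] at h'
    exact np3 _ _ _ _ _ h h'
  obtain ⟨t, tS, tE, tN, tW⟩ := local_t (s.X1 x y) (s.Y1 (x+1) y) (s.X1 x (y+1)) (s.Y1 x y) al
    (c1 x y) (c1 (x+1) y) (c1 (x+1) (y+1)) (c1 x (y+1)) (hc.tx x y) (hc.ty (x+1) y)
    (hc.tx x (y+1)) (hc.ty x y)
  have some0 : (s.X1 (x-1) y = true ∨ s.Y1 x (y-1) = true ∨ s.Z x y = true) → c1 x y = t := by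
    intro h
    have := h0 h
    cases hS : s.X1 x y
    · cases hW : s.Y1 x y
      · rw [hS, hW] at this; exact absurd rfl this
      · exact (tW hW).1
    · exact (tS hS).1
  have some1 : (s.X1 (x+1) y = true ∨ s.Y1 (x+1) (y-1) = true ∨ s.Z (x+1) y = true) →
      c1 (x+1) y = t := by
    intro h
    have := h1 h
    cases hS : s.X1 x y
    · cases hW : s.Y1 (x+1) y
      · rw [hS, hW] at this; exact absurd rfl this
      · exact (tE hW).1
    · exact (tS hS).2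
  have some2 : (s.X1 (x+1) (y+1) = true ∨ s.Y1 (x+1) (y+1) = true ∨ s.Z (x+1) (y+1) = true) →
      c1 (x+1) (y+1) = t := by
    intro h
    have := h2 h
    cases hS : s.Y1 (x+1) y
    · cases hW : s.X1 x (y+1)
      · rw [hS, hW] at this; exact absurd rfl this
      · exact (tN hW).2
    · exact (tE hS).2
  have some3 : (s.X1 (x-1) (y+1) = true ∨ s.Y1 x (y+1) = true ∨ s.Z x (y+1) = true) →
      c1 x (y+1) = t := by
    intro h
    have := h3 h
    cases hS : s.X1 x (y+1)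
    · cases hW : s.Y1 x y
      · rw [hS, hW] at this; exact absurd rfl this
      · exact (tW hW).2
    · exact (tN hS).1
  set d : ℤ → ℤ → Fin 3 := fun a b => if (a = x ∨ a = x+1) ∧ (b = y ∨ b = y+1) then t
    else c1 a b with hd
  set c : ℤ → ℤ → Fin 3 := fun a b => if a = x+1 ∧ b = y+1 then pi t (c0 a b) else c0 a b with hcd
  have ed : ∀ a b, (a = x ∨ a = x+1) → (b = y ∨ b = y+1) → d a b = t := by
    intro a b ha hb
    simp only [d]
    rw [if_pos ⟨ha, hb⟩]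
  have ew : c (x+1) (y+1) = pi t (c0 (x+1) (y+1)) := by simp [c]
  have ec : ∀ a b, ¬ (a = x+1 ∧ b = y+1) → c a b = c0 a b := by
    intro a b h
    simp only [c]
    rw [if_neg h]
  have F : ∀ a b, ((s.X1 a b = true ∧ ¬ (a = x ∧ (b = y ∨ b = y+1))) ∨
      (s.X1 (a-1) b = true ∧ ¬ (a-1 = x ∧ (b = y ∨ b = y+1))) ∨
      (s.Y1 a b = true ∧ ¬ (b = y ∧ (a = x ∨ a = x+1))) ∨
      (s.Y1 a (b-1) = true ∧ ¬ (b-1 = y ∧ (a = x ∨ a = x+1))) ∨ s.Z a b = true) →
      d a b = c1 a b := by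
    intro a b hab
    by_cases q0 : a = x ∧ b = y
    · obtain ⟨rfl, rfl⟩ := q0
      rw [ed _ _ (Or.inl rfl) (Or.inl rfl)]; symm; apply some0
      rcases hab with h | h | h | h | h
      · exact absurd ⟨rfl, Or.inl rfl⟩ h.2
      · exact Or.inl h.1
      · exact absurd ⟨rfl, Or.inl rfl⟩ h.2
      · exact Or.inr (Or.inl h.1)
      · exact Or.inr (Or.inr h)
    by_cases q1 : a = x+1 ∧ b = y
    · obtain ⟨rfl, rfl⟩ := q1
      rw [ed _ _ (Or.inr rfl) (Or.inl rfl)]; symm; apply some1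
      rcases hab with h | h | h | h | h
      · exact Or.inl h.1
      · exact absurd ⟨by ring, Or.inl rfl⟩ h.2
      · exact absurd ⟨rfl, Or.inr rfl⟩ h.2
      · exact Or.inr (Or.inl h.1)
      · exact Or.inr (Or.inr h)
    by_cases q2 : a = x+1 ∧ b = y+1
    · obtain ⟨rfl, rfl⟩ := q2
      rw [ed _ _ (Or.inr rfl) (Or.inr rfl)]; symm; apply some2
      rcases hab with h | h | h | h | h
      · exact Or.inl h.1
      · exact absurd ⟨by ring, Or.inr rfl⟩ h.2
      · exact Or.inr (Or.inl h.1)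
      · exact absurd ⟨by ring, Or.inr rfl⟩ h.2
      · exact Or.inr (Or.inr h)
    by_cases q3 : a = x ∧ b = y+1
    · obtain ⟨rfl, rfl⟩ := q3
      rw [ed _ _ (Or.inl rfl) (Or.inr rfl)]; symm; apply some3
      rcases hab with h | h | h | h | h
      · exact absurd ⟨rfl, Or.inr rfl⟩ h.2
      · exact Or.inl h.1
      · exact Or.inr (Or.inl h.1)
      · exact absurd ⟨by ring, Or.inl rfl⟩ h.2
      · exact Or.inr (Or.inr h)
    simp only [d]
    rw [if_neg]
    rintro ⟨ha | ha, hb | hb⟩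
    · exact q0 ⟨ha, hb⟩
    · exact q3 ⟨ha, hb⟩
    · exact q1 ⟨ha, hb⟩
    · exact q2 ⟨ha, hb⟩
  refine ⟨c, d, ⟨?_, ?_, ?_, ?_, ?_⟩, ?_⟩
  · intro a b h
    rw [T.Z] at h
    by_cases q : a = x+1 ∧ b = y+1
    · obtain ⟨rfl, rfl⟩ := q
      rw [ew, ed _ _ (Or.inr rfl) (Or.inr rfl), hc.v _ _ h, some2 (Or.inr (Or.inr h)), pi_self]
    · rw [ec a b q, F a b (Or.inr (Or.inr (Or.inr (Or.inr h))))]
      exact hc.v a b h
  · intro a b h
    by_cases q : a = x ∧ (b = y ∨ b = y+1)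
    · rw [ed a b (Or.inl q.1) q.2, ed (a+1) b (Or.inr (by rw [q.1])) q.2]
    · rw [T.X1 a b q] at h
      rw [F a b (Or.inl ⟨h, q⟩), F (a+1) b (by
        right; left
        rw [show a + 1 - 1 = a by ring]; exact ⟨h, q⟩)]
      exact hc.tx a b h
  · intro a b h
    by_cases q : b = y ∧ (a = x ∨ a = x+1)
    · rw [ed a b q.2 (Or.inl q.1), ed a (b+1) q.2 (Or.inr (by rw [q.1]))]
    · rw [T.Y1 a b q] at h
      rw [F a b (Or.inr (Or.inr (Or.inl ⟨h, q⟩))), F a (b+1) (by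
        right; right; right; left
        rw [show b + 1 - 1 = b by ring]; exact ⟨h, q⟩)]
      exact hc.ty a b h
  · intro a b h
    rw [T.X0] at h
    have hb := hc.bx a b h
    by_cases qr : a = x+1 ∧ b = y+1
    · obtain ⟨rfl, rfl⟩ := qr
      rw [show y + 1 - 1 = y by ring] at hb ⊢
      rw [T.E, ew, ed _ _ (Or.inr rfl) (Or.inr rfl), ec _ _ (by omega)]
      exact star_out _ _ _ _ _ (fun h => (tE h).2) hb
    by_cases ql : a = x ∧ b = y+1
    · obtain ⟨rfl, rfl⟩ := ql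
      rw [show y + 1 - 1 = y by ring] at hb ⊢
      rw [T.W, ew, ed _ _ (Or.inl rfl) (Or.inr rfl), ec _ _ (by omega)]
      exact star_in _ _ _ _ _ (fun h => (tW h).2) hb
    rw [T.Y1 a (b-1) (by omega), ec a b (by omega), ec (a+1) b (by omega), hb]
    cases hY : s.Y1 a (b-1)
    · rfl
    · rw [F a b (Or.inr (Or.inr (Or.inr (Or.inl ⟨hY, by omega⟩))))]
  · intro a b h
    rw [T.Y0] at h
    have hb := hc.by' a b h
    by_cases qr : a = x+1 ∧ b = y+1
    · obtain ⟨rfl, rfl⟩ := qr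
      rw [show x + 1 - 1 = x by ring] at hb ⊢
      rw [T.N, ew, ed _ _ (Or.inr rfl) (Or.inr rfl), ec _ _ (by omega)]
      exact star_out _ _ _ _ _ (fun h => (tN h).2) hb
    by_cases ql : a = x+1 ∧ b = y
    · obtain ⟨rfl, rfl⟩ := ql
      rw [show x + 1 - 1 = x by ring] at hb ⊢
      rw [T.S, ew, ed _ _ (Or.inr rfl) (Or.inl rfl), ec _ _ (by omega)]
      exact star_in _ _ _ _ _ (fun h => (tS h).2) hb
    rw [T.X1 (a-1) b (by omega), ec a b (by omega), ec a (b+1) (by omega), hb]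
    cases hY : s.X1 (a-1) b
    · rfl
    · rw [F a b (Or.inr (Or.inl ⟨hY, by omega⟩))]
  · intro γ hf
    apply hnf γ
    have ht : t = γ := by
      cases hS : s.X1 x y
      · have := (hf.x1 x y (by rw [T.S, hS]; rfl)).1
        rwa [ed _ _ (Or.inl rfl) (Or.inl rfl)] at this
      cases hNN : s.X1 x (y+1)
      · have := (hf.x1 x (y+1) (by rw [T.N, hNN]; rfl)).1
        rwa [ed _ _ (Or.inl rfl) (Or.inr rfl)] at this
      cases hE : s.Y1 (x+1) y
      · have := (hf.y1 (x+1) y (by rw [T.E, hE]; rfl)).1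
        rwa [ed _ _ (Or.inr rfl) (Or.inl rfl)] at this
      cases hW : s.Y1 x y
      · have := (hf.y1 x y (by rw [T.W, hW]; rfl)).1
        rwa [ed _ _ (Or.inl rfl) (Or.inl rfl)] at this
      exact absurd ⟨by rw [hS, hNN], by rw [hE, hW]⟩ al
    have back : ∀ a b, c a b = γ → c0 a b = γ := by
      intro a b h
      by_cases q : a = x+1 ∧ b = y+1
      · obtain ⟨rfl, rfl⟩ := q
        rw [ew, ht] at h
        have := congrArg (pi γ) h
        rwa [pi_pi, pi_self] at this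
      · rwa [ec a b q] at h
    refine ⟨?_, ?_, ?_, ?_, ?_⟩
    · intro a b h
      have := hf.x0 a b (by rw [T.X0]; exact h)
      exact ⟨back _ _ this.1, back _ _ this.2⟩
    · intro a b h
      have := hf.y0 a b (by rw [T.Y0]; exact h)
      exact ⟨back _ _ this.1, back _ _ this.2⟩
    · intro a b h
      by_cases q : a = x ∧ (b = y ∨ b = y+1)
      · obtain ⟨rfl, rfl | rfl⟩ := q
        · rw [← ht]; exact tS h
        · rw [← ht]; exact tN h
      · have := hf.x1 a b (by rw [T.X1 a b q]; exact h)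
        rwa [F a b (Or.inl ⟨h, q⟩), F (a+1) b (by
          right; left
          rw [show a + 1 - 1 = a by ring]; exact ⟨h, q⟩)] at this
    · intro a b h
      by_cases q : b = y ∧ (a = x ∨ a = x+1)
      · obtain ⟨rfl, rfl | rfl⟩ := q
        · rw [← ht]; exact tW h
        · rw [← ht]; exact tE h
      · have := hf.y1 a b (by rw [T.Y1 a b q]; exact h)
        rwa [F a b (Or.inr (Or.inr (Or.inl ⟨h, q⟩))), F a (b+1) (by
          right; right; right; left
          rw [show b + 1 - 1 = b by ring]; exact ⟨h, q⟩)] at this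
    · intro a b h
      have := hf.z a b (by rw [T.Z]; exact h)
      rw [F a b (Or.inr (Or.inr (Or.inr (Or.inr h))))] at this
      exact ⟨back _ _ this.1, this.2⟩

end Pool.Agent.Q40.BF
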