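import Pool.Agent.Q40.BF.InvTop

/-!
# Moves across a vertical square
-/

namespace Pool.Agent.Q40.BF

/-- `s'` arises from `s` by exchanging the sides of the vertical square with the bottom side
from `(x, y)` to `(x+1, y)` -/
structure TX (s s' : St) (x y : ℤ) : Prop where
  S : s'.X0 x y = !s.X0 x y
  N : s'.X1 x y = !s.X1 x y
  W : s'.Z x y = !s.Z x y
  E : s'.Z (x+1) y = !s.Z (x+1) y
  X0 : ∀ a b, ¬ (a = x ∧ b = y) → s'.X0 a b = s.X0 a b
  X1 : ∀ a b, ¬ (a = x ∧ b = y) → s'.X1 a b = s.X1 a b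
  Z : ∀ a b, ¬ ((a = x ∨ a = x+1) ∧ b = y) → s'.Z a b = s.Z a b
  Y0 : s'.Y0 = s.Y0
  Y1 : s'.Y1 = s.Y1

lemma npx0 (S p q r W : Bool) (h : Ev S p q r W = true) (h' : Ev (!S) p q r (!W) = true) :
    (p = true ∨ q = true ∨ r = true) → S ≠ W := by
  revert S p W q r; decide
lemma npx1 (p S q r E : Bool) (h : Ev p S q r E = true) (h' : Ev p (!S) q r (!E) = true) :
    (p = true ∨ q = true ∨ r = true) → S ≠ E := by
  revert S p E q r; decide

set_option synthInstance.maxSize 1000 in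
lemma local_x : ∀ S E N W f : Bool, ¬ (S = N ∧ E = W) → (f = true → N ≠ W) →
    ∀ ca cb ca1 cb1 : Fin 3,
    (S = true → cb = gg f ca1 ca) → (E = true → cb = cb1) → (N = true → ca1 = cb1) →
    (W = true → ca = ca1) →
    ∃ t : Fin 3, (S = true → ca = t ∧ cb = t) ∧ (E = true → cb = t ∧ cb1 = t) ∧
      (N = true → ca1 = t ∧ cb1 = t) ∧ (W = true → ca = t ∧ ca1 = t) := by
  decide +kernel

lemma gg_same (f : Bool) (t : Fin 3) : gg f t t = t := by
  revert f t; decide

theorem inv_TX {s s' : St} {x y : ℤ} (T : TX s s' x y) (g : s.Good) (g' : s'.Good)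
    (al : ¬ (s.X0 x y = s.X1 x y ∧ s.Z (x+1) y = s.Z x y)) (hN : s.N) : s'.N := by
  obtain ⟨c0, c1, hc, hnf⟩ := hN
  have h0 : (s.X0 (x-1) y = true ∨ s.Y0 x y = true ∨ s.Y0 x (y-1) = true) →
      s.X0 x y ≠ s.Z x y := by
    have h := (g x y).1
    have h' := (g' x y).1
    rw [T.S, T.W, T.X0 (x-1) y (by omega), T.Y0] at h'
    exact npx0 _ _ _ _ _ h h'
  have h1 : (s.X0 (x+1) y = true ∨ s.Y0 (x+1) y = true ∨ s.Y0 (x+1) (y-1) = true) →
      s.X0 x y ≠ s.Z (x+1) y := by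
    have h := (g (x+1) y).1
    have h' := (g' (x+1) y).1
    rw [show x + 1 - 1 = x by ring] at h h'
    rw [T.S, T.E, T.X0 (x+1) y (by omega), T.Y0] at h'
    exact npx1 _ _ _ _ _ h h'
  have k0 : (s.X1 (x-1) y = true ∨ s.Y1 x y = true ∨ s.Y1 x (y-1) = true) →
      s.X1 x y ≠ s.Z x y := by
    have h := (g x y).2
    have h' := (g' x y).2
    rw [T.N, T.W, T.X1 (x-1) y (by omega), T.Y1] at h'
    exact npx0 _ _ _ _ _ h h'
  have k1 : (s.X1 (x+1) y = true ∨ s.Y1 (x+1) y = true ∨ s.Y1 (x+1) (y-1) = true) →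
      s.X1 x y ≠ s.Z (x+1) y := by
    have h := (g (x+1) y).2
    have h' := (g' (x+1) y).2
    rw [show x + 1 - 1 = x by ring] at h h'
    rw [T.N, T.E, T.X1 (x+1) y (by omega), T.Y1] at h'
    exact npx1 _ _ _ _ _ h h'
  obtain ⟨t, tS, tE, tN, tW⟩ := local_x (s.X0 x y) (s.Z (x+1) y) (s.X1 x y) (s.Z x y)
    (s.Y1 x (y-1)) al (fun h => k0 (Or.inr (Or.inr h)))
    (c0 x y) (c0 (x+1) y) (c1 x y) (c1 (x+1) y) (hc.bx x y) (hc.v (x+1) y)
    (hc.tx x y) (hc.v x y)
  have some0 : (s.X0 (x-1) y = true ∨ s.Y0 x y = true ∨ s.Y0 x (y-1) = true) → c0 x y = t := by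
    intro h
    have := h0 h
    cases hS : s.X0 x y
    · cases hW : s.Z x y
      · rw [hS, hW] at this; exact absurd rfl this
      · exact (tW hW).1
    · exact (tS hS).1
  have some1 : (s.X0 (x+1) y = true ∨ s.Y0 (x+1) y = true ∨ s.Y0 (x+1) (y-1) = true) →
      c0 (x+1) y = t := by
    intro h
    have := h1 h
    cases hS : s.X0 x y
    · cases hW : s.Z (x+1) y
      · rw [hS, hW] at this; exact absurd rfl this
      · exact (tE hW).1
    · exact (tS hS).2
  have some2 : (s.X1 (x-1) y = true ∨ s.Y1 x y = true ∨ s.Y1 x (y-1) = true) → c1 x y = t := by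
    intro h
    have := k0 h
    cases hS : s.X1 x y
    · cases hW : s.Z x y
      · rw [hS, hW] at this; exact absurd rfl this
      · exact (tW hW).2
    · exact (tN hS).1
  have some3 : (s.X1 (x+1) y = true ∨ s.Y1 (x+1) y = true ∨ s.Y1 (x+1) (y-1) = true) →
      c1 (x+1) y = t := by
    intro h
    have := k1 h
    cases hS : s.X1 x y
    · cases hW : s.Z (x+1) y
      · rw [hS, hW] at this; exact absurd rfl this
      · exact (tE hW).2
    · exact (tN hS).2
  set c : ℤ → ℤ → Fin 3 := fun a b => if (a = x ∨ a = x+1) ∧ b = y then t else c0 a b with hcd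
  set d : ℤ → ℤ → Fin 3 := fun a b => if (a = x ∨ a = x+1) ∧ b = y then t else c1 a b with hdd
  have ec : ∀ a b, (a = x ∨ a = x+1) → b = y → c a b = t := by
    intro a b ha hb
    simp only [c]
    rw [if_pos ⟨ha, hb⟩]
  have ed : ∀ a b, (a = x ∨ a = x+1) → b = y → d a b = t := by
    intro a b ha hb
    simp only [d]
    rw [if_pos ⟨ha, hb⟩]
  have F0 : ∀ a b, ((s.X0 a b = true ∧ ¬ (a = x ∧ b = y)) ∨
      (s.X0 (a-1) b = true ∧ ¬ (a-1 = x ∧ b = y)) ∨ s.Y0 a b = true ∨ s.Y0 a (b-1) = true ∨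
      (s.Z a b = true ∧ ¬ ((a = x ∨ a = x+1) ∧ b = y))) → c a b = c0 a b := by
    intro a b hab
    by_cases q0 : a = x ∧ b = y
    · obtain ⟨rfl, rfl⟩ := q0
      rw [ec _ _ (Or.inl rfl) rfl]; symm; apply some0
      rcases hab with h | h | h | h | h
      · exact absurd ⟨rfl, rfl⟩ h.2
      · exact Or.inl h.1
      · exact Or.inr (Or.inl h)
      · exact Or.inr (Or.inr h)
      · exact absurd ⟨Or.inl rfl, rfl⟩ h.2
    by_cases q1 : a = x+1 ∧ b = y
    · obtain ⟨rfl, rfl⟩ := q1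
      rw [ec _ _ (Or.inr rfl) rfl]; symm; apply some1
      rcases hab with h | h | h | h | h
      · exact Or.inl h.1
      · exact absurd ⟨by ring, rfl⟩ h.2
      · exact Or.inr (Or.inl h)
      · exact Or.inr (Or.inr h)
      · exact absurd ⟨Or.inr rfl, rfl⟩ h.2
    simp only [c]
    rw [if_neg]
    rintro ⟨ha | ha, hb⟩
    · exact q0 ⟨ha, hb⟩
    · exact q1 ⟨ha, hb⟩
  have F1 : ∀ a b, ((s.X1 a b = true ∧ ¬ (a = x ∧ b = y)) ∨
      (s.X1 (a-1) b = true ∧ ¬ (a-1 = x ∧ b = y)) ∨ s.Y1 a b = true ∨ s.Y1 a (b-1) = true ∨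
      (s.Z a b = true ∧ ¬ ((a = x ∨ a = x+1) ∧ b = y))) → d a b = c1 a b := by
    intro a b hab
    by_cases q0 : a = x ∧ b = y
    · obtain ⟨rfl, rfl⟩ := q0
      rw [ed _ _ (Or.inl rfl) rfl]; symm; apply some2
      rcases hab with h | h | h | h | h
      · exact absurd ⟨rfl, rfl⟩ h.2
      · exact Or.inl h.1
      · exact Or.inr (Or.inl h)
      · exact Or.inr (Or.inr h)
      · exact absurd ⟨Or.inl rfl, rfl⟩ h.2
    by_cases q1 : a = x+1 ∧ b = y
    · obtain ⟨rfl, rfl⟩ := q1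
      rw [ed _ _ (Or.inr rfl) rfl]; symm; apply some3
      rcases hab with h | h | h | h | h
      · exact Or.inl h.1
      · exact absurd ⟨by ring, rfl⟩ h.2
      · exact Or.inr (Or.inl h)
      · exact Or.inr (Or.inr h)
      · exact absurd ⟨Or.inr rfl, rfl⟩ h.2
    simp only [d]
    rw [if_neg]
    rintro ⟨ha | ha, hb⟩
    · exact q0 ⟨ha, hb⟩
    · exact q1 ⟨ha, hb⟩
  refine ⟨c, d, ⟨?_, ?_, ?_, ?_, ?_⟩, ?_⟩
  · intro a b h
    by_cases q : (a = x ∨ a = x+1) ∧ b = y
    · rw [ec a b q.1 q.2, ed a b q.1 q.2]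
    · rw [T.Z a b q] at h
      rw [F0 a b (Or.inr (Or.inr (Or.inr (Or.inr ⟨h, q⟩)))),
        F1 a b (Or.inr (Or.inr (Or.inr (Or.inr ⟨h, q⟩))))]
      exact hc.v a b h
  · intro a b h
    by_cases q : a = x ∧ b = y
    · rw [ed a b (Or.inl q.1) q.2, ed (a+1) b (Or.inr (by rw [q.1])) q.2]
    · rw [T.X1 a b q] at h
      rw [F1 a b (Or.inl ⟨h, q⟩), F1 (a+1) b (by
        right; left
        rw [show a + 1 - 1 = a by ring]; exact ⟨h, q⟩)]
      exact hc.tx a b h
  · intro a b h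
    rw [T.Y1] at h
    rw [F1 a b (Or.inr (Or.inr (Or.inl h))), F1 a (b+1) (by
      right; right; right; left
      rw [show b + 1 - 1 = b by ring]; exact h)]
    exact hc.ty a b h
  · intro a b h
    rw [T.Y1]
    by_cases q : a = x ∧ b = y
    · rw [ec a b (Or.inl q.1) q.2, ec (a+1) b (Or.inr (by rw [q.1])) q.2,
        ed a b (Or.inl q.1) q.2, gg_same]
    · rw [T.X0 a b q] at h
      rw [F0 a b (Or.inl ⟨h, q⟩), F0 (a+1) b (by
        right; left
        rw [show a + 1 - 1 = a by ring]; exact ⟨h, q⟩), hc.bx a b h]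
      cases hY : s.Y1 a (b-1)
      · rfl
      · rw [F1 a b (Or.inr (Or.inr (Or.inr (Or.inl hY))))]
  · intro a b h
    rw [T.Y0] at h
    have hb := hc.by' a b h
    have hF0 := F0 a b (Or.inr (Or.inr (Or.inl h)))
    have hF1 := F0 a (b+1) (by
      right; right; right; left
      rw [show b + 1 - 1 = b by ring]; exact h)
    by_cases q : a = x+1 ∧ b = y
    · obtain ⟨rfl, rfl⟩ := q
      rw [hF1, hb, show x + 1 - 1 = x by ring, T.N, ed _ _ (Or.inr rfl) rfl,
        ec _ _ (Or.inr rfl) rfl]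
      have hct : c0 (x+1) b = t := by rw [← hF0, ec _ _ (Or.inr rfl) rfl]
      rw [hct, gg_same]
      cases hX : s.X1 x b
      · rfl
      · rw [(tN hX).2, gg_same]
    · rw [hF0, hF1, hb, T.X1 (a-1) b (by omega)]
      cases hX : s.X1 (a-1) b
      · rfl
      · rw [F1 a b (Or.inr (Or.inl ⟨hX, by omega⟩))]
  · intro γ hf
    apply hnf γ
    have ht : t = γ := by
      cases hS : s.X0 x y
      · have := (hf.x0 x y (by rw [T.S, hS]; rfl)).1
        rwa [ec _ _ (Or.inl rfl) rfl] at this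
      cases hNN : s.X1 x y
      · have := (hf.x1 x y (by rw [T.N, hNN]; rfl)).1
        rwa [ed _ _ (Or.inl rfl) rfl] at this
      cases hE : s.Z (x+1) y
      · have := (hf.z (x+1) y (by rw [T.E, hE]; rfl)).1
        rwa [ec _ _ (Or.inr rfl) rfl] at this
      cases hW : s.Z x y
      · have := (hf.z x y (by rw [T.W, hW]; rfl)).1
        rwa [ec _ _ (Or.inl rfl) rfl] at this
      exact absurd ⟨by rw [hS, hNN], by rw [hE, hW]⟩ al
    refine ⟨?_, ?_, ?_, ?_, ?_⟩
    · intro a b h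
      by_cases q : a = x ∧ b = y
      · obtain ⟨rfl, rfl⟩ := q
        rw [← ht]; exact tS h
      · have := hf.x0 a b (by rw [T.X0 a b q]; exact h)
        rwa [F0 a b (Or.inl ⟨h, q⟩), F0 (a+1) b (by
          right; left
          rw [show a + 1 - 1 = a by ring]; exact ⟨h, q⟩)] at this
    · intro a b h
      have := hf.y0 a b (by rw [T.Y0]; exact h)
      rwa [F0 a b (Or.inr (Or.inr (Or.inl h))), F0 a (b+1) (by
        right; right; right; left
        rw [show b + 1 - 1 = b by ring]; exact h)] at this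
    · intro a b h
      by_cases q : a = x ∧ b = y
      · obtain ⟨rfl, rfl⟩ := q
        rw [← ht]; exact tN h
      · have := hf.x1 a b (by rw [T.X1 a b q]; exact h)
        rwa [F1 a b (Or.inl ⟨h, q⟩), F1 (a+1) b (by
          right; left
          rw [show a + 1 - 1 = a by ring]; exact ⟨h, q⟩)] at this
    · intro a b h
      have := hf.y1 a b (by rw [T.Y1]; exact h)
      rwa [F1 a b (Or.inr (Or.inr (Or.inl h))), F1 a (b+1) (by
        right; right; right; left
        rw [show b + 1 - 1 = b by ring]; exact h)] at this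
    · intro a b h
      by_cases q : (a = x ∨ a = x+1) ∧ b = y
      · obtain ⟨rfl | rfl, rfl⟩ := q
        · rw [← ht]; exact tW h
        · rw [← ht]; exact tE h
      · have := hf.z a b (by rw [T.Z a b q]; exact h)
        rwa [F0 a b (Or.inr (Or.inr (Or.inr (Or.inr ⟨h, q⟩)))),
          F1 a b (Or.inr (Or.inr (Or.inr (Or.inr ⟨h, q⟩))))] at this

/-! ### Exchange of the two horizontal coordinates -/

/-- exchange the two horizontal coordinates -/
def St.swap (s : St) : St :=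
  ⟨fun a b => s.Y0 b a, fun a b => s.Y1 b a, fun a b => s.X0 b a, fun a b => s.X1 b a,
    fun a b => s.Z b a⟩

lemma ev_swap (p q r u z : Bool) : Ev p q r u z = Ev r u p q z := by
  revert p q r u z; decide

lemma St.Good.swap {s : St} (g : s.Good) : s.swap.Good := by
  intro a b
  have h := g b a
  constructor
  · rw [ev_swap]; exact h.1
  · rw [ev_swap]; exact h.2

lemma St.N.swap {s : St} (h : s.N) : s.swap.N := by
  obtain ⟨c0, c1, hc, hf⟩ := h
  refine ⟨fun a b => c0 b a, fun a b => c1 b a, ⟨?_, ?_, ?_, ?_, ?_⟩, ?_⟩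
  · intro a b h; exact hc.v b a h
  · intro a b h; exact hc.ty b a h
  · intro a b h; exact hc.tx b a h
  · intro a b h; exact hc.by' b a h
  · intro a b h; exact hc.bx b a h
  · intro γ hh
    apply hf γ
    refine ⟨?_, ?_, ?_, ?_, ?_⟩
    · intro a b h; exact hh.y0 b a h
    · intro a b h; exact hh.x0 b a h
    · intro a b h; exact hh.y1 b a h
    · intro a b h; exact hh.x1 b a h
    · intro a b h; exact hh.z b a h

/-- `s'` arises from `s` by exchanging the sides of the vertical square with the bottom side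
from `(x, y)` to `(x, y+1)` -/
structure TY (s s' : St) (x y : ℤ) : Prop where
  S : s'.Y0 x y = !s.Y0 x y
  N : s'.Y1 x y = !s.Y1 x y
  W : s'.Z x y = !s.Z x y
  E : s'.Z x (y+1) = !s.Z x (y+1)
  Y0 : ∀ a b, ¬ (a = x ∧ b = y) → s'.Y0 a b = s.Y0 a b
  Y1 : ∀ a b, ¬ (a = x ∧ b = y) → s'.Y1 a b = s.Y1 a b
  Z : ∀ a b, ¬ (a = x ∧ (b = y ∨ b = y+1)) → s'.Z a b = s.Z a b
  X0 : s'.X0 = s.X0
  X1 : s'.X1 = s.X1

theorem inv_TY {s s' : St} {x y : ℤ} (T : TY s s' x y) (g : s.Good) (g' : s'.Good)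
    (al : ¬ (s.Y0 x y = s.Y1 x y ∧ s.Z x (y+1) = s.Z x y)) (hN : s.N) : s'.N := by
  have T' : TX s.swap s'.swap y x := by
    refine ⟨T.S, T.N, T.W, T.E, ?_, ?_, ?_, ?_, ?_⟩
    · intro a b h; exact T.Y0 b a (fun h' => h ⟨h'.2, h'.1⟩)
    · intro a b h; exact T.Y1 b a (fun h' => h ⟨h'.2, h'.1⟩)
    · intro a b h; exact T.Z b a (fun h' => h ⟨h'.2, h'.1⟩)
    · funext a b; exact congrFun (congrFun T.X0 b) a
    · funext a b; exact congrFun (congrFun T.X1 b) a
  exact (inv_TX T' g.swap g'.swap al hN.swap).swap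

end Pool.Agent.Q40.BF
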