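import Pool.Agent.Q40.BF.Defs
import Pool.Agent.Q40.BF.InvVert

/-!
# From polygons in the slab of width one to states
-/

namespace Pool.Agent.Q40.BF

/-- edge in the first direction -/
def EX (x y z : ℤ) : Sym2 V3 := s((x, y, z), (x+1, y, z))
/-- edge in the second direction -/
def EY (x y z : ℤ) : Sym2 V3 := s((x, y, z), (x, y+1, z))
/-- edge in the third direction -/
def EZ (x y z : ℤ) : Sym2 V3 := s((x, y, z), (x, y, z+1))

lemma EX_inj {x y z a b c : ℤ} : EX x y z = EX a b c ↔ x = a ∧ y = b ∧ z = c := by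
  simp only [EX, Sym2.eq_iff, Prod.mk.injEq]; omega
lemma EY_inj {x y z a b c : ℤ} : EY x y z = EY a b c ↔ x = a ∧ y = b ∧ z = c := by
  simp only [EY, Sym2.eq_iff, Prod.mk.injEq]; omega
lemma EZ_inj {x y z a b c : ℤ} : EZ x y z = EZ a b c ↔ x = a ∧ y = b ∧ z = c := by
  simp only [EZ, Sym2.eq_iff, Prod.mk.injEq]; omega
lemma EX_ne_EY {x y z a b c : ℤ} : EX x y z ≠ EY a b c := by
  simp only [EX, EY, ne_eq, Sym2.eq_iff, Prod.mk.injEq]; omega
lemma EX_ne_EZ {x y z a b c : ℤ} : EX x y z ≠ EZ a b c := by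
  simp only [EX, EZ, ne_eq, Sym2.eq_iff, Prod.mk.injEq]; omega
lemma EY_ne_EZ {x y z a b c : ℤ} : EY x y z ≠ EZ a b c := by
  simp only [EY, EZ, ne_eq, Sym2.eq_iff, Prod.mk.injEq]; omega
lemma EY_ne_EX {x y z a b c : ℤ} : EY x y z ≠ EX a b c := EX_ne_EY.symm
lemma EZ_ne_EX {x y z a b c : ℤ} : EZ x y z ≠ EX a b c := EX_ne_EZ.symm
lemma EZ_ne_EY {x y z a b c : ℤ} : EZ x y z ≠ EY a b c := EY_ne_EZ.symm

/-- the edges of a polygon have length one and lie in the slab -/
lemma Polygon.unit {w : ℤ} {ω : Set (Sym2 V3)} (h : Polygon w ω) {u v : V3} (e : s(u, v) ∈ ω) :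
    UnitVec (v - u) ∧ (0 ≤ u.2.2 ∧ u.2.2 ≤ w) ∧ (0 ≤ v.2.2 ∧ v.2.2 ≤ w) := by
  obtain ⟨l, ⟨_, _, hh, hu⟩, rfl⟩ := h
  obtain ⟨p, hp, he⟩ := e
  have h1 := hh p.1 (List.of_mem_zip hp).1
  have h2 := hh p.2 (by simpa using (List.of_mem_zip hp).2)
  have h3 := hu p hp
  rcases Sym2.eq_iff.1 he with ⟨rfl, rfl⟩ | ⟨rfl, rfl⟩
  · exact ⟨h3, h1, h2⟩
  · refine ⟨?_, h2, h1⟩
    rw [← neg_sub]
    simpa only [UnitVec, Prod.fst_neg, Prod.snd_neg, Int.natAbs_neg] using h3

/-- every site lies on zero or two edges of a polygon -/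
lemma Polygon.deg {w : ℤ} {ω : Set (Sym2 V3)} (h : Polygon w ω) (v : V3) :
    (∀ u, s(v, u) ∉ ω) ∨ ∃ a b, a ≠ b ∧ ∀ u, s(v, u) ∈ ω ↔ (u = a ∨ u = b) := by
  obtain ⟨l, ⟨hl, hn, _, _⟩, rfl⟩ := h
  set n := l.length with hnl
  have hmem : ∀ u, s(v, u) ∈ closedPath l ↔ ∃ (j : ℕ) (hj : j < l.length),
      (l[j] = v ∧ l[(j+1) % l.length]'(Nat.mod_lt _ (by omega)) = u) ∨
      (l[j] = u ∧ l[(j+1) % l.length]'(Nat.mod_lt _ (by omega)) = v) := by
    intro u
    constructor
    · rintro ⟨p, hp, he⟩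
      obtain ⟨j, hj, hjp⟩ := List.mem_iff_getElem.1 hp
      have hj' : j < l.length := by
        simp only [List.length_zip, List.length_rotate] at hj; omega
      refine ⟨j, hj', ?_⟩
      simp only [List.getElem_zip, List.getElem_rotate] at hjp
      subst hjp
      rcases Sym2.eq_iff.1 he with ⟨h1, h2⟩ | ⟨h1, h2⟩
      · exact Or.inl ⟨h1.symm, h2.symm⟩
      · exact Or.inr ⟨h2.symm, h1.symm⟩
    · rintro ⟨j, hj, hj'⟩
      refine ⟨(l[j], l[(j+1) % l.length]'(Nat.mod_lt _ (by omega))), ?_, ?_⟩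
      · rw [List.mem_iff_getElem]
        refine ⟨j, by simp only [List.length_zip, List.length_rotate]; omega, ?_⟩
        simp only [List.getElem_zip, List.getElem_rotate]
      · rcases hj' with ⟨h1, h2⟩ | ⟨h1, h2⟩
        · rw [h1, h2]
        · rw [h1, h2, Sym2.eq_swap]
  by_cases hv : v ∈ l
  · right
    obtain ⟨i, hi, hiv⟩ := List.mem_iff_getElem.1 hv
    have inj : ∀ {p q : ℕ} (hp : p < l.length) (hq : q < l.length), l[p] = l[q] → p = q := by
      intro p q hp hq h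
      exact (List.Nodup.getElem_inj_iff hn).1 h
    have hm1 : (i + 1) % l.length < l.length := Nat.mod_lt _ (by omega)
    have hm2 : (i + l.length - 1) % l.length < l.length := Nat.mod_lt _ (by omega)
    have e1 : (i + 1) % l.length = if i + 1 = l.length then 0 else i + 1 := by
      split_ifs with h
      · rw [h, Nat.mod_self]
      · exact Nat.mod_eq_of_lt (by omega)
    have e2 : (i + l.length - 1) % l.length = if i = 0 then l.length - 1 else i - 1 := by
      split_ifs with h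
      · subst h; rw [Nat.zero_add]; exact Nat.mod_eq_of_lt (by omega)
      · rw [show i + l.length - 1 = (i - 1) + l.length by omega, Nat.add_mod_right]
        exact Nat.mod_eq_of_lt (by omega)
    refine ⟨l[(i+1) % l.length], l[(i + l.length - 1) % l.length], ?_, ?_⟩
    · intro h
      have := inj hm1 hm2 h
      rw [e1, e2] at this
      split_ifs at this <;> omega
    · intro u
      rw [hmem]
      constructor
      · rintro ⟨j, hj, ⟨h1, h2⟩ | ⟨h1, h2⟩⟩
        · have : j = i := inj hj hi (h1.trans hiv.symm)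
          subst this
          exact Or.inl h2.symm
        · right
          have hji : (j + 1) % l.length = i := inj _ hi (h2.trans hiv.symm)
          have e3 : (j + 1) % l.length = if j + 1 = l.length then 0 else j + 1 := by
            split_ifs with h
            · rw [h, Nat.mod_self]
            · exact Nat.mod_eq_of_lt (by omega)
          have : (i + l.length - 1) % l.length = j := by
            rw [e2]; rw [e3] at hji
            split_ifs at hji ⊢ <;> omega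
          rw [← h1]
          congr 1
          exact this.symm
      · rintro (h | h)
        · exact ⟨i, hi, Or.inl ⟨hiv, h.symm⟩⟩
        · refine ⟨(i + l.length - 1) % l.length, hm2, Or.inr ⟨h.symm, ?_⟩⟩
          rw [← hiv]
          congr 1
          rw [e2]
          split_ifs with h0
          · subst h0
            rw [show l.length - 1 + 1 = l.length by omega, Nat.mod_self]
          · rw [show i - 1 + 1 = i by omega]
            exact Nat.mod_eq_of_lt hi
  · left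
    intro u hu
    rw [hmem] at hu
    obtain ⟨j, hj, ⟨h1, _⟩ | ⟨_, h2⟩⟩ := hu
    · exact hv (h1 ▸ List.getElem_mem hj)
    · exact hv (h2 ▸ List.getElem_mem _)

open Classical in
/-- the state of a set of edges -/
noncomputable def stOf (ω : Set (Sym2 V3)) : St where
  X0 := fun x y => decide (EX x y 0 ∈ ω)
  X1 := fun x y => decide (EX x y 1 ∈ ω)
  Y0 := fun x y => decide (EY x y 0 ∈ ω)
  Y1 := fun x y => decide (EY x y 1 ∈ ω)
  Z := fun x y => decide (EZ x y 0 ∈ ω)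

open Classical in
lemma ev_two {n1 n2 n3 n4 n5 a b : V3} (hab : a ≠ b)
    (h12 : n1 ≠ n2) (h13 : n1 ≠ n3) (h14 : n1 ≠ n4) (h15 : n1 ≠ n5) (h23 : n2 ≠ n3)
    (h24 : n2 ≠ n4) (h25 : n2 ≠ n5) (h34 : n3 ≠ n4) (h35 : n3 ≠ n5) (h45 : n4 ≠ n5)
    (ha : a = n1 ∨ a = n2 ∨ a = n3 ∨ a = n4 ∨ a = n5)
    (hb : b = n1 ∨ b = n2 ∨ b = n3 ∨ b = n4 ∨ b = n5) :
    Ev (decide (n1 = a ∨ n1 = b)) (decide (n2 = a ∨ n2 = b)) (decide (n3 = a ∨ n3 = b))
      (decide (n4 = a ∨ n4 = b)) (decide (n5 = a ∨ n5 = b)) = true := by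
  rcases ha with rfl | rfl | rfl | rfl | rfl <;> rcases hb with rfl | rfl | rfl | rfl | rfl <;>
    first
    | exact absurd rfl hab
    | simp [Ev, h12, h13, h14, h15, h23, h24, h25, h34, h35, h45, h12.symm, h13.symm, h14.symm,
        h15.symm, h23.symm, h24.symm, h25.symm, h34.symm, h35.symm, h45.symm]

/-- the neighbours of a site -/
lemma unit_cases {u v : V3} (h : UnitVec (v - u)) :
    v = (u.1 + 1, u.2.1, u.2.2) ∨ v = (u.1 - 1, u.2.1, u.2.2) ∨ v = (u.1, u.2.1 + 1, u.2.2) ∨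
    v = (u.1, u.2.1 - 1, u.2.2) ∨ v = (u.1, u.2.1, u.2.2 + 1) ∨ v = (u.1, u.2.1, u.2.2 - 1) := by
  obtain ⟨a, b, c⟩ := u
  obtain ⟨a', b', c'⟩ := v
  simp only [UnitVec, Prod.fst_sub, Prod.snd_sub] at h
  simp only [Prod.mk.injEq]
  have h3 : ((a' - a).natAbs = 1 ∧ (b' - b).natAbs = 0 ∧ (c' - c).natAbs = 0) ∨
      ((a' - a).natAbs = 0 ∧ (b' - b).natAbs = 1 ∧ (c' - c).natAbs = 0) ∨
      ((a' - a).natAbs = 0 ∧ (b' - b).natAbs = 0 ∧ (c' - c).natAbs = 1) := by
    generalize (a' - a).natAbs = p at *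
    generalize (b' - b).natAbs = q at *
    generalize (c' - c).natAbs = r at *
    omega
  rcases h3 with ⟨h1, h2, h3⟩ | ⟨h1, h2, h3⟩ | ⟨h1, h2, h3⟩
  · rw [Int.natAbs_eq_zero] at h2 h3
    rcases Int.natAbs_eq_iff.1 h1 with h1 | h1 <;> simp only [Nat.cast_one] at h1 <;> omega
  · rw [Int.natAbs_eq_zero] at h1 h3
    rcases Int.natAbs_eq_iff.1 h2 with h2 | h2 <;> simp only [Nat.cast_one] at h2 <;> omega
  · rw [Int.natAbs_eq_zero] at h1 h2
    rcases Int.natAbs_eq_iff.1 h3 with h3 | h3 <;> simp only [Nat.cast_one] at h3 <;> omega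

lemma Polygon.good {ω : Set (Sym2 V3)} (h : Polygon 1 ω) : (stOf ω).Good := by
  classical
  intro x y
  have e1 : ∀ z, EX (x-1) y z = s((x, y, z), (x-1, y, z)) := by
    intro z; rw [EX, Sym2.eq_swap, show x - 1 + 1 = x by ring]
  have e2 : ∀ z, EY x (y-1) z = s((x, y, z), (x, y-1, z)) := by
    intro z; rw [EY, Sym2.eq_swap, show y - 1 + 1 = y by ring]
  constructor
  · simp only [stOf]
    rcases h.deg (x, y, 0) with h0 | ⟨a, b, hab, h0⟩
    · rw [e1, e2, EX, EY, EZ]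
      simp only [h0, decide_false]
      rfl
    · have ha := (h0 a).2 (Or.inl rfl)
      have hb := (h0 b).2 (Or.inr rfl)
      have key : ∀ u, s((x, y, (0:ℤ)), u) ∈ ω → u = (x+1, y, 0) ∨ u = (x-1, y, 0) ∨
          u = (x, y+1, 0) ∨ u = (x, y-1, 0) ∨ u = (x, y, 0+1) := by
        intro u hu
        have h1 := h.unit hu
        rcases unit_cases h1.1 with hh | hh | hh | hh | hh | hh
        · exact Or.inl hh
        · exact Or.inr (Or.inl hh)
        · exact Or.inr (Or.inr (Or.inl hh))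
        · exact Or.inr (Or.inr (Or.inr (Or.inl hh)))
        · exact Or.inr (Or.inr (Or.inr (Or.inr hh)))
        · exfalso
          have h2 := h1.2.2.1
          rw [hh] at h2
          simp at h2
      rw [e1, e2, EX, EY, EZ]
      simp only [h0]
      refine ev_two hab ?_ ?_ ?_ ?_ ?_ ?_ ?_ ?_ ?_ ?_ (key a ha) (key b hb) <;>
        simp only [ne_eq, Prod.mk.injEq] <;> omega
  · simp only [stOf]
    rcases h.deg (x, y, 1) with h0 | ⟨a, b, hab, h0⟩
    · rw [e1, e2, EX, EY, show EZ x y 0 = s((x, y, (1:ℤ)), (x, y, 0)) by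
        rw [EZ, Sym2.eq_swap, zero_add]]
      simp only [h0, decide_false]
      rfl
    · have ha := (h0 a).2 (Or.inl rfl)
      have hb := (h0 b).2 (Or.inr rfl)
      have key : ∀ u, s((x, y, (1:ℤ)), u) ∈ ω → u = (x+1, y, 1) ∨ u = (x-1, y, 1) ∨
          u = (x, y+1, 1) ∨ u = (x, y-1, 1) ∨ u = (x, y, 0) := by
        intro u hu
        have h1 := h.unit hu
        rcases unit_cases h1.1 with hh | hh | hh | hh | hh | hh
        · exact Or.inl hh
        · exact Or.inr (Or.inl hh)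
        · exact Or.inr (Or.inr (Or.inl hh))
        · exact Or.inr (Or.inr (Or.inr (Or.inl hh)))
        · exfalso
          have h2 := h1.2.2.2
          rw [hh] at h2
          simp at h2
        · exact Or.inr (Or.inr (Or.inr (Or.inr (by rw [hh]; simp))))
      rw [e1, e2, EX, EY, show EZ x y 0 = s((x, y, (1:ℤ)), (x, y, 0)) by
        rw [EZ, Sym2.eq_swap, zero_add]]
      simp only [h0]
      refine ev_two hab ?_ ?_ ?_ ?_ ?_ ?_ ?_ ?_ ?_ ?_ (key a ha) (key b hb) <;>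
        simp only [ne_eq, Prod.mk.injEq] <;> omega

/-- the move across the square with the sides `p, q, r, t` keeps the existence of colourings with
two colours -/
def Keeps (p q r t : Sym2 V3) : Prop := ∀ ω ω' : Set (Sym2 V3), Polygon 1 ω → Polygon 1 ω' →
  ¬ ((p ∈ ω ↔ r ∈ ω) ∧ (q ∈ ω ↔ t ∈ ω)) → ω' = symmDiff ω {p, q, r, t} →
  (stOf ω).N → (stOf ω').N

lemma mem_sd {ω : Set (Sym2 V3)} {p q r t e : Sym2 V3} :
    e ∈ symmDiff ω {p, q, r, t} ↔ Xor (e ∈ ω) (e = p ∨ e = q ∨ e = r ∨ e = t) := by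
  rw [Set.mem_symmDiff]
  simp only [Set.mem_insert_iff, Set.mem_singleton_iff]
  rfl

open Classical in
lemma dec_in {ω ω' : Set (Sym2 V3)} {p q r t e : Sym2 V3} (h : ω' = symmDiff ω {p, q, r, t})
    (he : e = p ∨ e = q ∨ e = r ∨ e = t) : decide (e ∈ ω') = !decide (e ∈ ω) := by
  rw [h, mem_sd]
  by_cases h1 : e ∈ ω <;> simp [Xor, h1, he]

open Classical in
lemma dec_out {ω ω' : Set (Sym2 V3)} {p q r t e : Sym2 V3} (h : ω' = symmDiff ω {p, q, r, t})
    (h1 : e ≠ p) (h2 : e ≠ q) (h3 : e ≠ r) (h4 : e ≠ t) :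
    decide (e ∈ ω') = decide (e ∈ ω) := by
  rw [h, mem_sd]
  simp [Xor, h1, h2, h3, h4]

lemma keeps_xy0 (x y : ℤ) : Keeps (EX x y 0) (EY (x+1) y 0) (EX x (y+1) 0) (EY x y 0) := by
  classical
  intro ω ω' h h' al hs hN
  refine inv_TB (s := stOf ω) (s' := stOf ω') (x := x) (y := y) ?_ h.good h'.good ?_ hN
  · refine ⟨dec_in hs (by tauto), dec_in hs (by tauto), dec_in hs (by tauto),
      dec_in hs (by tauto), ?_, ?_, ?_, ?_, ?_⟩
    · intro a b hab
      exact dec_out hs (by rw [Ne, EX_inj]; omega) EX_ne_EY (by rw [Ne, EX_inj]; omega) EX_ne_EY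
    · intro a b hab
      exact dec_out hs EY_ne_EX (by rw [Ne, EY_inj]; omega) EY_ne_EX (by rw [Ne, EY_inj]; omega)
    · funext a b
      exact dec_out hs (by rw [Ne, EX_inj]; omega) EX_ne_EY (by rw [Ne, EX_inj]; omega) EX_ne_EY
    · funext a b
      exact dec_out hs EY_ne_EX (by rw [Ne, EY_inj]; omega) EY_ne_EX (by rw [Ne, EY_inj]; omega)
    · funext a b
      exact dec_out hs EZ_ne_EX EZ_ne_EY EZ_ne_EX EZ_ne_EY
  · simpa only [stOf, decide_eq_decide] using al

lemma keeps_xy1 (x y : ℤ) : Keeps (EX x y 1) (EY (x+1) y 1) (EX x (y+1) 1) (EY x y 1) := by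
  classical
  intro ω ω' h h' al hs hN
  refine inv_TT (s := stOf ω) (s' := stOf ω') (x := x) (y := y) ?_ h.good h'.good ?_ hN
  · refine ⟨dec_in hs (by tauto), dec_in hs (by tauto), dec_in hs (by tauto),
      dec_in hs (by tauto), ?_, ?_, ?_, ?_, ?_⟩
    · intro a b hab
      exact dec_out hs (by rw [Ne, EX_inj]; omega) EX_ne_EY (by rw [Ne, EX_inj]; omega) EX_ne_EY
    · intro a b hab
      exact dec_out hs EY_ne_EX (by rw [Ne, EY_inj]; omega) EY_ne_EX (by rw [Ne, EY_inj]; omega)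
    · funext a b
      exact dec_out hs (by rw [Ne, EX_inj]; omega) EX_ne_EY (by rw [Ne, EX_inj]; omega) EX_ne_EY
    · funext a b
      exact dec_out hs EY_ne_EX (by rw [Ne, EY_inj]; omega) EY_ne_EX (by rw [Ne, EY_inj]; omega)
    · funext a b
      exact dec_out hs EZ_ne_EX EZ_ne_EY EZ_ne_EX EZ_ne_EY
  · simpa only [stOf, decide_eq_decide] using al

lemma keeps_xz0 (x y : ℤ) : Keeps (EX x y 0) (EZ (x+1) y 0) (EX x y 1) (EZ x y 0) := by
  classical
  intro ω ω' h h' al hs hN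
  refine inv_TX (s := stOf ω) (s' := stOf ω') (x := x) (y := y) ?_ h.good h'.good ?_ hN
  · refine ⟨dec_in hs (by tauto), dec_in hs (by tauto), dec_in hs (by tauto),
      dec_in hs (by tauto), ?_, ?_, ?_, ?_, ?_⟩
    · intro a b hab
      exact dec_out hs (by rw [Ne, EX_inj]; omega) EX_ne_EZ (by rw [Ne, EX_inj]; omega) EX_ne_EZ
    · intro a b hab
      exact dec_out hs (by rw [Ne, EX_inj]; omega) EX_ne_EZ (by rw [Ne, EX_inj]; omega) EX_ne_EZ
    · intro a b hab
      exact dec_out hs EZ_ne_EX (by rw [Ne, EZ_inj]; omega) EZ_ne_EX (by rw [Ne, EZ_inj]; omega)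
    · funext a b
      exact dec_out hs EY_ne_EX EY_ne_EZ EY_ne_EX EY_ne_EZ
    · funext a b
      exact dec_out hs EY_ne_EX EY_ne_EZ EY_ne_EX EY_ne_EZ
  · simpa only [stOf, decide_eq_decide] using al

lemma keeps_yz0 (x y : ℤ) : Keeps (EY x y 0) (EZ x (y+1) 0) (EY x y 1) (EZ x y 0) := by
  classical
  intro ω ω' h h' al hs hN
  refine inv_TY (s := stOf ω) (s' := stOf ω') (x := x) (y := y) ?_ h.good h'.good ?_ hN
  · refine ⟨dec_in hs (by tauto), dec_in hs (by tauto), dec_in hs (by tauto),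
      dec_in hs (by tauto), ?_, ?_, ?_, ?_, ?_⟩
    · intro a b hab
      exact dec_out hs (by rw [Ne, EY_inj]; omega) EY_ne_EZ (by rw [Ne, EY_inj]; omega) EY_ne_EZ
    · intro a b hab
      exact dec_out hs (by rw [Ne, EY_inj]; omega) EY_ne_EZ (by rw [Ne, EY_inj]; omega) EY_ne_EZ
    · intro a b hab
      exact dec_out hs EZ_ne_EY (by rw [Ne, EZ_inj]; omega) EZ_ne_EY (by rw [Ne, EZ_inj]; omega)
    · funext a b
      exact dec_out hs EX_ne_EY EX_ne_EZ EX_ne_EY EX_ne_EZ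
    · funext a b
      exact dec_out hs EX_ne_EY EX_ne_EZ EX_ne_EY EX_ne_EZ
  · simpa only [stOf, decide_eq_decide] using al

/-- squares which stick out of the slab -/
lemma keeps_of_out {p q r t : Sym2 V3} (hp : ∀ ω, Polygon 1 ω → p ∉ ω) : Keeps p q r t := by
  intro ω ω' hω hω' _ hs _
  exfalso
  apply hp ω' hω'
  rw [hs, mem_sd]
  exact Or.inr ⟨Or.inl rfl, hp ω hω⟩

end Pool.Agent.Q40.BF
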