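import Mathlib

/-!
# Local colouring checks

Colours are elements of `Fin 3`; the involution `pi t` is the identity for `t = 0`, exchanges `0`
and `2` for `t = 1` and exchanges `0` and `1` for `t = 2`.  In particular `pi t t = t`.
-/

namespace Pool.Agent.Q40.BF

/-- the involution of the three colours attached to the colour `t` -/
def pi (t a : Fin 3) : Fin 3 :=
  if t = 1 then (if a = 0 then 2 else if a = 2 then 0 else a)
  else if t = 2 then (if a = 0 then 1 else if a = 1 then 0 else a) else a

/-- passing below a strand of colour `t` if the flag is set -/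
def gg (f : Bool) (t a : Fin 3) : Fin 3 := if f then pi t a else a

lemma pi_self (t : Fin 3) : pi t t = t := by revert t; decide
lemma pi_pi (t a : Fin 3) : pi t (pi t a) = a := by revert t a; decide

/-- number of flags which are set, zero or two -/
def Ev (a b c d e : Bool) : Bool :=
  (a.toNat + b.toNat + c.toNat + d.toNat + e.toNat == 0) ||
  (a.toNat + b.toNat + c.toNat + d.toNat + e.toNat == 2)

lemma ev_np (S W p q r : Bool) (h : Ev S p W q r = true) (h' : Ev (!S) p (!W) q r = true) :
    (p || q || r) = true → S ≠ W := by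
  revert S W p q r; decide

lemma ev_c0 (S W p q r : Bool) (h : Ev S p W q r = true) (h' : Ev (!S) p (!W) q r = true) :
    (p || q || r) = true → S ≠ W := by
  revert S W p q r; decide

set_option maxRecDepth 100000 in
set_option synthInstance.maxSize 2000 in
lemma local_bottom : ∀ S E N W : Bool, ¬ (S = N ∧ E = W) →
    ∀ fE fW fN fS z : Bool, Ev fE fW fN fS z = true → (z = true → S ≠ W) →
    ∀ t c0 : Fin 3, (z = true → c0 = t) → ∀ c1 : Fin 3, (S = true → c1 = gg fS t c0) →
    ∀ c2 : Fin 3, (E = true → c2 = gg fE t c1) → ∀ c3 : Fin 3, (N = true → c2 = gg fN t c3) →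
    (W = true → c3 = gg fW t c0) →
    ∃ d0 : Fin 3, (S ≠ W → d0 = c0) ∧ ∃ d1 : Fin 3, (S ≠ E → d1 = c1) ∧
      (S = false → d1 = gg fS t d0) ∧ ∃ d2 : Fin 3, (E ≠ N → d2 = c2) ∧
      (E = false → d2 = gg fE t d1) ∧ ∃ d3 : Fin 3, (N ≠ W → d3 = c3) ∧
      (N = false → d2 = gg fN t d3) ∧ (W = false → d3 = gg fW t d0) ∧
      ∀ γ : Fin 3, (S = false → d0 = γ ∧ d1 = γ) → (E = false → d1 = γ ∧ d2 = γ) →
        (N = false → d3 = γ ∧ d2 = γ) → (W = false → d0 = γ ∧ d3 = γ) →
        ((fE || fW || fN || fS || z) = true → t = γ) →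
        (S = true → c0 = γ ∧ c1 = γ) ∧ (E = true → c1 = γ ∧ c2 = γ) ∧
        (N = true → c3 = γ ∧ c2 = γ) ∧ (W = true → c0 = γ ∧ c3 = γ) := by
  decide +kernel

end Pool.Agent.Q40.BF
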