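import Pool.Agent.Q40.BF.Defs

/-!
# Checked sequences of moves
-/

namespace Pool.Agent.Q40.BF

/-- the edges of the path from `v` through the sites of the list to `u` -/
def pe : V3 → List V3 → V3 → Set (Sym2 V3)
  | v, [], u => {s(v, u)}
  | v, w :: r, u => insert s(v, w) (pe w r u)

lemma zip_pe (x : V3) (r : List V3) (u : V3) :
    {e | ∃ p ∈ (x :: r).zip (r ++ [u]), e = s(p.1, p.2)} = pe x r u := by
  induction r generalizing x with
  | nil =>
    ext e
    simp [pe]
  | cons w r ih =>
    rw [pe, ← ih w]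
    ext e
    simp

lemma closedPath_cons (u : V3) (r : List V3) : closedPath (u :: r) = pe u r u := by
  rw [← zip_pe]
  simp [closedPath]

lemma mem_pe {v u : V3} {r : List V3} {e : Sym2 V3} (h : e ∈ pe v r u) {t : V3} (ht : t ∈ e) :
    t = v ∨ t ∈ r ∨ t = u := by
  induction r generalizing v with
  | nil =>
    simp only [pe, Set.mem_singleton_iff] at h
    subst h
    rcases Sym2.mem_iff.1 ht with h | h
    · exact Or.inl h
    · exact Or.inr (Or.inr h)
  | cons w r ih =>
    simp only [pe, Set.mem_insert_iff] at h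
    rcases h with h | h
    · subst h
      rcases Sym2.mem_iff.1 ht with h | h
      · exact Or.inl h
      · exact Or.inr (Or.inl (by rw [h]; exact List.mem_cons_self))
    · rcases ih h with h | h | h
      · exact Or.inr (Or.inl (by rw [h]; exact List.mem_cons_self))
      · exact Or.inr (Or.inl (List.mem_cons_of_mem _ h))
      · exact Or.inr (Or.inr h)

lemma zip_rotate_one (l : List V3) (k : ℕ) :
    (l.rotate k).zip ((l.rotate k).rotate 1) = (l.zip (l.rotate 1)).rotate k := by
  rw [List.rotate_rotate, add_comm, ← List.rotate_rotate]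
  exact (List.zipWith_rotate_distrib _ _ _ _ (by simp)).symm

lemma closedPath_rotate (l : List V3) (k : ℕ) : closedPath (l.rotate k) = closedPath l := by
  unfold closedPath
  rw [zip_rotate_one]
  simp only [List.mem_rotate]

lemma IsCycle.rotate {w : ℤ} {l : List V3} (h : IsCycle w l) (k : ℕ) :
    IsCycle w (l.rotate k) := by
  obtain ⟨h1, h2, h3, h4⟩ := h
  refine ⟨by simpa using h1, by simpa using h2, ?_, ?_⟩
  · intro v hv
    exact h3 v (by simpa using hv)
  · intro p hp
    rw [zip_rotate_one] at hp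
    exact h4 p (by simpa using hp)

lemma IsCycle.unit1 {w : ℤ} {u v : V3} {r : List V3} (h : IsCycle w (u :: v :: r)) :
    UnitVec (v - u) := h.2.2.2 (u, v) (by simp)

lemma IsCycle.unit2 {w : ℤ} {u v x : V3} {r : List V3} (h : IsCycle w (u :: v :: x :: r)) :
    UnitVec (x - v) := h.2.2.2 (v, x) (by simp)

lemma unitVec_neg {e : V3} (h : UnitVec e) : UnitVec (-e) := by
  simpa only [UnitVec, Prod.fst_neg, Prod.snd_neg, Int.natAbs_neg] using h

lemma unitVec_sub {u v : V3} (h : UnitVec (v - u)) : UnitVec (u - v) := by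
  rw [← neg_sub]; exact unitVec_neg h

lemma sd_aux {A : Set (Sym2 V3)} {p q r t : Sym2 V3} (hp : p ∉ A) (hq : q ∉ A) (hr : r ∉ A)
    (ht : t ∉ A) (h1 : p ≠ q) (h2 : p ≠ r) (h3 : p ≠ t) :
    (insert q (insert r (insert t A)) : Set (Sym2 V3)) = symmDiff (insert p A) {p, q, r, t} := by
  ext e
  rw [Set.mem_symmDiff]
  simp only [Set.mem_insert_iff, Set.mem_singleton_iff]
  by_cases e1 : e = p
  · subst e1; simp [hp, h1, h2, h3]
  by_cases e2 : e = q
  · subst e2; simp [hq, e1]
  by_cases e3 : e = r
  · subst e3; simp [hr, e1]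
  by_cases e4 : e = t
  · subst e4; simp [ht, e1]
  simp [e1, e2, e3, e4]

lemma sd_aux2 {A : Set (Sym2 V3)} {p q r t : Sym2 V3} (hp : p ∉ A) (hq : q ∉ A) (hr : r ∉ A)
    (ht : t ∉ A) (h1 : p ≠ q) (h2 : p ≠ r) (h3 : t ≠ q) (h4 : t ≠ r) :
    (insert q (insert r A) : Set (Sym2 V3)) = symmDiff (insert p (insert t A)) {p, q, r, t} := by
  ext e
  rw [Set.mem_symmDiff]
  simp only [Set.mem_insert_iff, Set.mem_singleton_iff]
  by_cases e1 : e = p
  · subst e1; simp [hp, h1, h2]
  by_cases e2 : e = q
  · subst e2; simp [hq, e1, h3.symm]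
  by_cases e3 : e = r
  · subst e3; simp [hr, e1, h4.symm]
  by_cases e4 : e = t
  · subst e4; simp [ht, e2, e3]
  simp [e1, e2, e3, e4]

lemma grow_move {w : ℤ} {u v d : V3} {r : List V3} (h : IsCycle w (u :: v :: r))
    (h' : IsCycle w (u :: (u + d) :: (v + d) :: v :: r)) :
    Move w (closedPath (u :: v :: r)) (closedPath (u :: (u + d) :: (v + d) :: v :: r)) := by
  refine ⟨⟨_, h, rfl⟩, ⟨_, h', rfl⟩, u, v - u, d, h.unit1, ?_, ?_, ?_, ?_, ?_⟩
  · have := h'.unit1
    rwa [add_sub_cancel_left] at this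
  all_goals
    have hn := h.2.1
    have hn' := h'.2.1
    simp only [List.nodup_cons, List.mem_cons, not_or] at hn hn'
    obtain ⟨⟨n1, n2, n3, n4⟩, ⟨n5, n6, n7⟩, ⟨n8, n9⟩, n10, n11⟩ := hn'
  · intro hh
    apply n6
    rw [← hh]; abel
  · intro hh
    apply n2
    rw [eq_neg_iff_add_eq_zero] at hh
    have : u - (v + d) = 0 - (v - u + d) := by abel
    rw [hh, sub_zero, sub_eq_zero] at this
    exact this
  all_goals
    have e1 : u + (v - u) = v := by abel
    have A0 : closedPath (u :: v :: r) = insert s(u, v) (pe v r u) := by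
      rw [closedPath_cons, pe]
    have A1 : closedPath (u :: (u + d) :: (v + d) :: v :: r) =
        insert s(u, u + d) (insert s(u + d, v + d) (insert s(v, v + d) (pe v r u))) := by
      rw [closedPath_cons, pe, pe, pe, Sym2.eq_swap (a := v + d) (b := v)]
    have k1 : s(u, v) ∉ pe v r u := by
      have hl := h.1
      cases r with
      | nil => simp at hl
      | cons x r =>
        rw [pe]
        intro hh
        simp only [Set.mem_insert_iff] at hh
        simp only [List.mem_cons, not_or] at hn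
        rcases hh with hh | hh
        · rcases Sym2.eq_iff.1 hh with ⟨q1, q2⟩ | ⟨q1, q2⟩
          · exact hn.1.1 q1
          · exact hn.1.2.1 q1
        · rcases mem_pe hh (t := v) (by simp) with q | q | q
          · exact hn.2.1.1 q
          · exact hn.2.1.2 q
          · exact hn.1.1 q.symm
    have hu' : ∀ e ∈ pe v r u, u + d ∉ e := by
      intro e he hh
      rcases mem_pe he hh with q | q | q
      · exact n6 q
      · exact n7 q
      · exact n1 q.symm
    have hv' : ∀ e ∈ pe v r u, v + d ∉ e := by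
      intro e he hh
      rcases mem_pe he hh with q | q | q
      · exact n8 q
      · exact n9 q
      · exact n2 q.symm
    have k2 : s(u, u + d) ∉ pe v r u := fun hh => hu' _ hh (by simp)
    have k3 : s(u + d, v + d) ∉ pe v r u := fun hh => hu' _ hh (by simp)
    have k4 : s(v, v + d) ∉ pe v r u := fun hh => hv' _ hh (by simp)
    have m1 : s(u, v) ≠ s(u, u + d) := by
      intro hh
      rcases Sym2.eq_iff.1 hh with ⟨q1, q2⟩ | ⟨q1, q2⟩
      · exact n6 q2.symm
      · exact n1 q1
    have m2 : s(u, v) ≠ s(u + d, v + d) := by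
      intro hh
      rcases Sym2.eq_iff.1 hh with ⟨q1, q2⟩ | ⟨q1, q2⟩
      · exact n1 q1
      · exact n2 q1
    have m3 : s(u, v) ≠ s(v, v + d) := by
      intro hh
      rcases Sym2.eq_iff.1 hh with ⟨q1, q2⟩ | ⟨q1, q2⟩
      · exact n3 q1
      · exact n2 q1
  · rw [e1, A0]
    rintro ⟨hh, -⟩
    have := hh.1 (Set.mem_insert _ _)
    rw [Set.mem_insert_iff] at this
    rcases this with q | q
    · exact m2 q.symm
    · exact k3 q
  · rw [A0, A1, squareSides, e1]
    exact sd_aux k1 k2 k3 k4 m1 m2 m3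

lemma flip_move {w : ℤ} {u v x : V3} {r : List V3} (h : IsCycle w (u :: v :: x :: r))
    (h' : IsCycle w (u :: (u + x - v) :: x :: r)) (hne : u + x - v ≠ v) :
    Move w (closedPath (u :: v :: x :: r)) (closedPath (u :: (u + x - v) :: x :: r)) := by
  have hn := h.2.1
  have hn' := h'.2.1
  simp only [List.nodup_cons, List.mem_cons, not_or] at hn hn'
  obtain ⟨⟨n1, n2, n3⟩, ⟨n4, n5⟩, n6, n7⟩ := hn
  obtain ⟨⟨p1, p2, p3⟩, ⟨p4, p5⟩, p6, p7⟩ := hn'
  have e1 : v + (u - v) = u := by abel
  have e2 : v + (x - v) = x := by abel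
  have e3 : u + (x - v) = u + x - v := by abel
  set v' := u + x - v with hv'
  have A0 : closedPath (u :: v :: x :: r) = insert s(v, u) (insert s(v, x) (pe x r u)) := by
    rw [closedPath_cons, pe, pe, Sym2.eq_swap (a := u) (b := v)]
  have A1 : closedPath (u :: v' :: x :: r) = insert s(x, v') (insert s(u, v') (pe x r u)) := by
    rw [closedPath_cons, pe, pe, Sym2.eq_swap (a := v') (b := x), Set.insert_comm]
  have hv : ∀ e ∈ pe x r u, v ∉ e := by
    intro e he hh
    rcases mem_pe he hh with q | q | q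
    · exact n4 q
    · exact n5 q
    · exact n1 q.symm
  have hvv : ∀ e ∈ pe x r u, v' ∉ e := by
    intro e he hh
    rcases mem_pe he hh with q | q | q
    · exact p4 q
    · exact p5 q
    · exact p1 q.symm
  have k1 : s(v, u) ∉ pe x r u := fun hh => hv _ hh (by simp)
  have k2 : s(v, x) ∉ pe x r u := fun hh => hv _ hh (by simp)
  have k3 : s(x, v') ∉ pe x r u := fun hh => hvv _ hh (by simp)
  have k4 : s(u, v') ∉ pe x r u := fun hh => hvv _ hh (by simp)
  have m1 : s(v, u) ≠ s(x, v') := by
    intro hh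
    rcases Sym2.eq_iff.1 hh with ⟨q1, q2⟩ | ⟨q1, q2⟩
    · exact n4 q1
    · exact n2 q2
  have m2 : s(v, u) ≠ s(u, v') := by
    intro hh
    rcases Sym2.eq_iff.1 hh with ⟨q1, q2⟩ | ⟨q1, q2⟩
    · exact n1 q1.symm
    · exact hne q1.symm
  have m3 : s(v, x) ≠ s(x, v') := by
    intro hh
    rcases Sym2.eq_iff.1 hh with ⟨q1, q2⟩ | ⟨q1, q2⟩
    · exact n4 q1
    · exact hne q1.symm
  have m4 : s(v, x) ≠ s(u, v') := by
    intro hh
    rcases Sym2.eq_iff.1 hh with ⟨q1, q2⟩ | ⟨q1, q2⟩
    · exact n1 q1.symm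
    · exact hne q1.symm
  refine ⟨⟨_, h, rfl⟩, ⟨_, h', rfl⟩, v, u - v, x - v, unitVec_sub h.unit1, h.unit2, ?_, ?_, ?_, ?_⟩
  · intro hh
    exact n2 (sub_left_injective hh)
  · intro hh
    apply hne
    rw [neg_sub] at hh
    have : v' - v = u - v - (v - x) := by rw [hv']; abel
    rw [hh, sub_self, sub_eq_zero] at this
    exact this
  · rw [e1, e2, e3, A0]
    rintro ⟨hh, -⟩
    have := hh.1 (Set.mem_insert _ _)
    rw [Set.mem_insert_iff, Set.mem_insert_iff] at this
    rcases this with q | q | q
    · exact m1 q.symm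
    · exact m3 q.symm
    · exact k3 q
  · rw [A0, A1, squareSides, e1, e2, e3]
    have := sd_aux2 (A := pe x r u) (p := s(v, u)) (q := s(x, v')) (r := s(u, v'))
      (t := s(v, x)) k1 k3 k4 k2 m1 m2 m3 m4
    rw [this]
    congr 1
    ext e
    simp only [Set.mem_insert_iff, Set.mem_singleton_iff]
    tauto

/-- instructions: rotate the list `k` times, then lengthen in the direction `d`, flip a corner
or shorten -/
inductive Op
  | g (k : ℕ) (d : V3)
  | f (k : ℕ)
  | s (k : ℕ)

/-- carry out an instruction -/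
def Op.app : Op → List V3 → List V3
  | .g k d, l => match l.rotate k with
    | u :: v :: r => u :: (u + d) :: (v + d) :: v :: r
    | l' => l'
  | .f k, l => match l.rotate k with
    | u :: v :: x :: r => u :: (u + x - v) :: x :: r
    | l' => l'
  | .s k, l => match l.rotate k with
    | u :: _ :: _ :: v :: r => u :: v :: r
    | l' => l'

/-- check an instruction -/
def Op.chk (w : ℤ) : Op → List V3 → Bool
  | .g k d, l => decide (IsCycle w ((Op.g k d).app l)) && decide (2 ≤ l.length)
  | .f k, l => decide (IsCycle w ((Op.f k).app l)) && (match l.rotate k with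
    | u :: v :: x :: _ => decide (u + x - v ≠ v)
    | _ => false)
  | .s k, l => decide (IsCycle w ((Op.s k).app l)) && (match l.rotate k with
    | u :: a :: b :: v :: _ => decide (b = v + (a - u))
    | _ => false)

lemma Op.sound {w : ℤ} (o : Op) {l : List V3} (hl : IsCycle w l) (h : o.chk w l = true) :
    IsCycle w (o.app l) ∧ SameClass w (closedPath l) (closedPath (o.app l)) := by
  cases o with
  | g k d =>
    simp only [Op.chk, Bool.and_eq_true, decide_eq_true_eq] at h
    refine ⟨h.1, ?_⟩
    have hr := hl.rotate k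
    rw [← closedPath_rotate l k]
    have h1 := h.1
    simp only [Op.app] at h1 ⊢
    split at h1
    · next u v r heq =>
      rw [heq] at hr ⊢
      exact Relation.EqvGen.rel _ _ (grow_move hr h1)
    · exact Relation.EqvGen.refl _
  | f k =>
    simp only [Op.chk, Bool.and_eq_true, decide_eq_true_eq] at h
    refine ⟨h.1, ?_⟩
    have hr := hl.rotate k
    rw [← closedPath_rotate l k]
    have h1 := h.1
    have h2 := h.2
    simp only [Op.app] at h1 ⊢
    split at h2
    · next u v x r heq =>
      rw [heq] at hr h1 ⊢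
      simp only [decide_eq_true_eq] at h2
      exact Relation.EqvGen.rel _ _ (flip_move hr h1 h2)
    · exact absurd h2 (by simp)
  | s k =>
    simp only [Op.chk, Bool.and_eq_true, decide_eq_true_eq] at h
    refine ⟨h.1, ?_⟩
    have hr := hl.rotate k
    rw [← closedPath_rotate l k]
    have h1 := h.1
    have h2 := h.2
    simp only [Op.app] at h1 ⊢
    split at h2
    · next u a b v r heq =>
      rw [heq] at hr h1 ⊢
      simp only [decide_eq_true_eq] at h2
      have ha : a = u + (a - u) := by abel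
      rw [h2] at hr ⊢
      rw [ha] at hr ⊢
      rw [add_sub_cancel_left] at hr ⊢
      exact Relation.EqvGen.symm _ _ (Relation.EqvGen.rel _ _ (grow_move h1 hr))
    · exact absurd h2 (by simp)

/-- carry out a list of instructions, checking each of them -/
def runs (w : ℤ) : List Op → List V3 → Option (List V3)
  | [], l => some l
  | o :: t, l => if o.chk w l = true then runs w t (o.app l) else none

lemma runs_sound {w : ℤ} (os : List Op) {l l' : List V3} (hl : IsCycle w l)
    (h : runs w os l = some l') :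
    IsCycle w l' ∧ SameClass w (closedPath l) (closedPath l') := by
  induction os generalizing l with
  | nil =>
    simp only [runs, Option.some.injEq] at h
    subst h
    exact ⟨hl, Relation.EqvGen.refl _⟩
  | cons o t ih =>
    rw [runs] at h
    split_ifs at h with hc
    obtain ⟨h1, h2⟩ := o.sound hl hc
    obtain ⟨h3, h4⟩ := ih h1 h
    exact ⟨h3, Relation.EqvGen.trans _ _ _ h2 h4⟩

lemma IsCycle.mono {w w' : ℤ} (hw : w ≤ w') {l : List V3} (h : IsCycle w l) : IsCycle w' l :=
  ⟨h.1, h.2.1, fun v hv => ⟨(h.2.2.1 v hv).1, (h.2.2.1 v hv).2.trans hw⟩, h.2.2.2⟩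

lemma Polygon.mono {w w' : ℤ} (hw : w ≤ w') {ω : Set (Sym2 V3)} (h : Polygon w ω) :
    Polygon w' ω := by
  obtain ⟨l, h, rfl⟩ := h
  exact ⟨l, h.mono hw, rfl⟩

lemma SameClass.mono {w w' : ℤ} (hw : w ≤ w') {ω ω' : Set (Sym2 V3)} (h : SameClass w ω ω') :
    SameClass w' ω ω' := by
  induction h with
  | rel a b h => exact .rel _ _ ⟨h.1.mono hw, h.2.1.mono hw, h.2.2⟩
  | refl a => exact .refl _
  | symm a b _ ih => exact .symm _ _ ih
  | trans a b c _ _ ih1 ih2 => exact .trans _ _ _ ih1 ih2

end Pool.Agent.Q40.BF
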